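import Pool.Agent.MP_9808b6_an.Cube

/-! Bounded low degree polynomials, restrictions and the level one bound. -/

open Finset

set_option linter.unusedSectionVars false

namespace Pool.Agent.MP_9808b6_an

variable {ι : Type} [Fintype ι] [DecidableEq ι]

/-- degree at most `m`, sup norm at most `M` -/
def Adm (a : Finset ι → ℝ) (m : ℕ) (M : ℝ) : Prop :=
  (∀ S, m < S.card → a S = 0) ∧ ∀ x, |evB univ a x| ≤ M

theorem Adm.nonneg {a : Finset ι → ℝ} {m : ℕ} {M : ℝ} (h : Adm a m M) : 0 ≤ M :=
  (abs_nonneg _).trans (h.2 ∅)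

theorem disj_of {A S T : Finset ι} (hS : S ⊆ A) (hT : T ⊆ Aᶜ) : Disjoint S T :=
  Finset.disjoint_of_subset_left hS (Finset.disjoint_of_subset_right hT disjoint_compl_right)

theorem union_inter_of {A S T : Finset ι} (hS : S ⊆ A) (hT : T ⊆ Aᶜ) : (S ∪ T) ∩ A = S := by
  ext i
  simp only [mem_inter, mem_union]
  constructor
  · rintro ⟨h | h, h'⟩
    · exact h
    · exact absurd h' (mem_compl.1 (hT h))
  · intro h; exact ⟨Or.inl h, hS h⟩

theorem sum_split (A : Finset ι) (F : Finset ι → ℝ) :
    ∑ U, F U = ∑ S ∈ A.powerset, ∑ T ∈ Aᶜ.powerset, F (S ∪ T) := by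
  rw [← Finset.sum_product']
  apply Finset.sum_nbij' (fun U => (U ∩ A, U ∩ Aᶜ)) (fun p => p.1 ∪ p.2)
  · intro U _
    simp
  · intro p _
    simp
  · intro U _
    simp only
    rw [← inter_union_distrib_left, union_compl, inter_univ]
  · rintro ⟨S, T⟩ hp
    simp only [mem_product, mem_powerset] at hp
    simp only [Prod.mk.injEq]
    refine ⟨union_inter_of hp.1 hp.2, ?_⟩
    rw [union_comm]
    exact union_inter_of hp.2 (by simpa using hp.1)
  · intro U _
    simp only
    rw [← inter_union_distrib_left, union_compl, inter_univ]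

/-- restriction: the variables outside `A` are frozen at `x` -/
def res (a : Finset ι → ℝ) (A x : Finset ι) : Finset ι → ℝ :=
  fun S => if S ⊆ A then evB Aᶜ (fun T => a (S ∪ T)) x else 0

theorem res_of_subset {a : Finset ι → ℝ} {A x S : Finset ι} (h : S ⊆ A) :
    res a A x S = evB Aᶜ (fun T => a (S ∪ T)) x := if_pos h

theorem Adm.res {a : Finset ι → ℝ} {m : ℕ} {M : ℝ} (h : Adm a m M) (A x : Finset ι) :
    Adm (res a A x) m M := by
  constructor
  · intro S hS
    unfold MP_9808b6_an.res
    split_ifs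
    · apply Finset.sum_eq_zero
      intro T _
      simp only
      rw [h.1 _ (lt_of_lt_of_le hS (card_le_card subset_union_left)), zero_mul]
    · rfl
  · intro y
    convert h.2 ((y ∩ A) ∪ (x ∩ Aᶜ)) using 2
    simp only [evB, powerset_univ]
    rw [sum_split A (fun T => a T * chi T (y ∩ A ∪ x ∩ Aᶜ)),
      ← Finset.sum_subset (subset_univ A.powerset)]
    · apply Finset.sum_congr rfl
      intro S hS
      have hS' := mem_powerset.1 hS
      rw [res_of_subset hS', evB, Finset.sum_mul]
      apply Finset.sum_congr rfl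
      intro T hT
      have hT' := mem_powerset.1 hT
      rw [mul_assoc]
      congr 1
      simp only [chi]
      rw [Finset.prod_union (disj_of hS' hT'), mul_comm]
      congr 1
      · apply Finset.prod_congr rfl
        intro i hi
        simp [sg, hS' hi]
      · apply Finset.prod_congr rfl
        intro i hi
        simp [sg, mem_compl.1 (hT' hi)]
    · intro S _ hS
      unfold MP_9808b6_an.res
      rw [if_neg (fun h => hS (mem_powerset.2 h)), zero_mul]

theorem ext_bound (y : ι → ℝ) (hy : ∀ i, |y i| ≤ 1) (M : ℝ) (B : Finset ι) (c : Finset ι → ℝ)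
    (h : ∀ x, |evB B c x| ≤ M) : |∑ T ∈ B.powerset, c T * ∏ i ∈ T, y i| ≤ M := by
  induction B using Finset.induction_on generalizing c with
  | empty => simpa [evB, chi] using h ∅
  | insert i B hi ih =>
    have key : ∀ s : ℝ, s = 1 ∨ s = -1 →
        |∑ T ∈ B.powerset, c T * ∏ i ∈ T, y i +
          s * ∑ T ∈ B.powerset, c (insert i T) * ∏ i ∈ T, y i| ≤ M := by
      intro s hs
      have := ih (fun T => c T + s * c (insert i T)) (by
        intro x
        have e : evB B (fun T => c T + s * c (insert i T)) x =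
            evB B c x + s * evB B (fun T => c (insert i T)) x := by
          simp only [evB, Finset.mul_sum, ← Finset.sum_add_distrib]
          exact Finset.sum_congr rfl fun T _ => by ring
        rw [e]
        have h1 := h x
        have h2 := h (symmDiff x {i})
        rw [evB_insert hi] at h1 h2
        rw [evB_flip hi, evB_flip hi, sg_flip_self] at h2
        by_cases hx : i ∈ x <;> rcases hs with rfl | rfl <;> simp only [sg, hx] at h1 h2 <;>
          simp_all)
      convert this using 2
      simp only [Finset.mul_sum, ← Finset.sum_add_distrib]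
      exact Finset.sum_congr rfl fun T _ => by ring
    have e : ∑ T ∈ (insert i B).powerset, c T * ∏ i ∈ T, y i =
        ∑ T ∈ B.powerset, c T * ∏ i ∈ T, y i +
          y i * ∑ T ∈ B.powerset, c (insert i T) * ∏ i ∈ T, y i := by
      rw [Finset.sum_powerset_insert hi, Finset.mul_sum]
      congr 1
      apply Finset.sum_congr rfl
      intro T hT
      rw [Finset.prod_insert (fun h => hi (mem_powerset.1 hT h))]
      ring
    rw [e]
    have k1 := abs_le.1 (key 1 (Or.inl rfl))
    have k2 := abs_le.1 (key (-1) (Or.inr rfl))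
    have k3 := abs_le.1 (hy i)
    rw [abs_le]
    constructor <;> nlinarith [k1.1, k1.2, k2.1, k2.2, k3.1, k3.2]

open Polynomial in
theorem markov_aux (R : ℝ[X]) (m : ℕ) (hm : 1 ≤ m) (hR : R.natDegree ≤ (m - 1) / 2)
    (hb : ∀ t : ℝ, |t| ≤ 1 → |t * R.eval (t ^ 2)| ≤ 1) : |R.eval 0| ≤ m := by
  let Y : ℝ[X] := C (1 / 2) * (1 - X)
  let W : ℝ[X] := 1 - C 2 * (Y * (R.comp Y) ^ 2)
  have hY : Y.natDegree ≤ 1 := by
    simp only [Y]; compute_degree
  have hW : W.degree ≤ m := by
    apply degree_le_of_natDegree_le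
    have h1 : (R.comp Y).natDegree ≤ (m - 1) / 2 := by
      refine natDegree_comp_le.trans ?_
      calc R.natDegree * Y.natDegree ≤ (m - 1) / 2 * 1 := Nat.mul_le_mul hR hY
        _ = _ := mul_one _
    have h2 : ((R.comp Y) ^ 2).natDegree ≤ 2 * ((m - 1) / 2) :=
      natDegree_pow_le.trans (Nat.mul_le_mul_left 2 h1)
    have h3 : (Y * (R.comp Y) ^ 2).natDegree ≤ m := natDegree_mul_le.trans (by omega)
    refine (natDegree_sub_le _ _).trans (max_le (by simp) ?_)
    exact (natDegree_C_mul_le _ _).trans h3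
  have hWb : ∀ x ∈ Set.Icc (-1 : ℝ) 1, |W.eval x| ≤ 1 := by
    intro x hx
    have hy0 : 0 ≤ 1 / 2 * (1 - x) := by linarith [hx.2]
    have hy1 : 1 / 2 * (1 - x) ≤ 1 := by linarith [hx.1]
    have h1 := hb (√(1 / 2 * (1 - x))) (by
      rw [abs_of_nonneg (Real.sqrt_nonneg _)]; exact Real.sqrt_le_one.2 hy1)
    rw [Real.sq_sqrt hy0] at h1
    have h2 : (√(1 / 2 * (1 - x)) * R.eval (1 / 2 * (1 - x))) ^ 2 ≤ 1 := by
      rw [← sq_abs]; exact pow_le_one₀ (abs_nonneg _) h1
    rw [mul_pow, Real.sq_sqrt hy0] at h2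
    have h3 : 0 ≤ 1 / 2 * (1 - x) * R.eval (1 / 2 * (1 - x)) ^ 2 := by positivity
    simp only [W, Y, eval_sub, eval_one, eval_mul, eval_C, eval_X, eval_pow, eval_comp]
    rw [abs_le]
    constructor <;> linarith
  have h := Chebyshev.eval_iterate_derivative_le_of_forall_abs_le_one (k := 1) (x := 1) le_rfl
    hW hWb
  simp only [Function.iterate_one, Chebyshev.derivative_T_eval_one] at h
  have e : (derivative W).eval 1 = R.eval 0 ^ 2 := by
    simp [W, Y, derivative_mul, eval_comp]
  rw [e] at h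
  apply abs_le_of_sq_le_sq' _ (by positivity) |> abs_le.2
  exact_mod_cast h

open Polynomial in
theorem level_one_aux {a : Finset ι → ℝ} {m : ℕ} (hm : 1 ≤ m) (h : Adm a m 1) :
    ∑ S ∈ powersetCard 1 univ, |a S| ≤ m := by
  let x : Finset ι := univ.filter (fun i => a {i} < 0)
  let R : ℝ[X] := ∑ S ∈ univ.filter (fun S : Finset ι => Odd S.card),
    C (a S * chi S x) * X ^ (S.card / 2)
  have hR : R.natDegree ≤ (m - 1) / 2 := by
    apply natDegree_sum_le_of_forall_le
    intro S hS
    by_cases hSm : m < S.card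
    · simp [h.1 S hSm]
    · refine (natDegree_C_mul_X_pow_le _ _).trans ?_
      obtain ⟨k, hk⟩ := (mem_filter.1 hS).2
      omega
  have hP : ∀ t : ℝ, |t| ≤ 1 → |∑ S, a S * chi S x * t ^ S.card| ≤ 1 := by
    intro t ht
    have := ext_bound (fun i => sg x i * t) (fun i => by
      rw [abs_mul]
      have : |sg x i| = 1 := by unfold sg; split_ifs <;> simp
      rw [this, one_mul]; exact ht) 1 univ a h.2
    convert this using 2
    rw [powerset_univ]
    apply Finset.sum_congr rfl
    intro S _
    rw [Finset.prod_mul_distrib, Finset.prod_const, chi, mul_assoc]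
  have hb : ∀ t : ℝ, |t| ≤ 1 → |t * R.eval (t ^ 2)| ≤ 1 := by
    intro t ht
    have e : 2 * (t * R.eval (t ^ 2)) =
        ∑ S, a S * chi S x * t ^ S.card - ∑ S, a S * chi S x * (-t) ^ S.card := by
      simp only [R, eval_finsetSum, eval_mul, eval_C, eval_pow, eval_X]
      rw [Finset.sum_filter]
      simp only [Finset.mul_sum, ← Finset.sum_sub_distrib]
      apply Finset.sum_congr rfl
      intro S _
      split_ifs with hS
      · rw [hS.neg_pow]
        obtain ⟨k, hk⟩ := hS
        have : S.card / 2 = k := by omega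
        rw [this, hk]; ring
      · rw [(Nat.not_odd_iff_even.1 hS).neg_pow]; ring
    have h1 := abs_le.1 (hP t ht)
    have h2 := abs_le.1 (hP (-t) (by rwa [abs_neg]))
    rw [abs_le]
    constructor <;> linarith [h1.1, h1.2, h2.1, h2.2]
  refine le_trans (le_of_eq ?_) ((le_abs_self _).trans (markov_aux R m hm hR hb))
  simp only [R, eval_finsetSum, eval_mul, eval_C, eval_pow, eval_X]
  symm
  rw [← Finset.sum_subset (s₁ := powersetCard 1 univ)]
  · apply Finset.sum_congr rfl
    intro S hS
    obtain ⟨i, rfl⟩ := card_eq_one.1 (mem_powersetCard.1 hS).2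
    simp only [chi, prod_singleton, card_singleton, Nat.reduceDiv, pow_zero, mul_one, sg, x,
      mem_filter, mem_univ, true_and]
    split_ifs with hi
    · rw [abs_of_neg hi]; ring
    · rw [abs_of_nonneg (not_lt.1 hi)]; ring
  · intro S hS
    simp [(mem_powersetCard.1 hS).2]
  · intro S hS hS'
    obtain ⟨k, hk⟩ := (mem_filter.1 hS).2
    have : S.card ≠ 1 := fun h => hS' (mem_powersetCard.2 ⟨subset_univ _, h⟩)
    rw [zero_pow (by omega), mul_zero]

theorem level_one {a : Finset ι → ℝ} {m : ℕ} {M : ℝ} (hm : 1 ≤ m) (h : Adm a m M) :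
    ∑ S ∈ powersetCard 1 univ, |a S| ≤ m * M := by
  have hm' : (0 : ℝ) < m := by exact_mod_cast hm
  have key : ∀ M' : ℝ, M < M' → ∑ S ∈ powersetCard 1 univ, |a S| ≤ m * M' := by
    intro M' hM'
    have h0 : 0 < M' := lt_of_le_of_lt h.nonneg hM'
    have := level_one_aux (a := fun S => M'⁻¹ * a S) hm ⟨fun S hS => by simp [h.1 S hS], by
      intro x
      have e : evB univ (fun S => M'⁻¹ * a S) x = M'⁻¹ * evB univ a x := by
        simp only [evB, Finset.mul_sum, mul_assoc]
      rw [e, abs_mul, abs_of_pos (inv_pos.2 h0), inv_mul_le_iff₀ h0, mul_one]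
      exact (h.2 x).trans hM'.le⟩
    simp only [abs_mul, abs_of_pos (inv_pos.2 h0), ← Finset.mul_sum] at this
    rwa [inv_mul_le_iff₀ h0, mul_comm] at this
  rw [← div_le_iff₀' hm']
  apply le_of_forall_gt_imp_ge_of_dense
  intro M' hM'
  rw [div_le_iff₀' hm']
  exact key M' hM'

theorem Adm.sum_sq {a : Finset ι → ℝ} {m : ℕ} {M : ℝ} (h : Adm a m M) :
    ∑ S, a S ^ 2 ≤ M ^ 2 := by
  rw [← powerset_univ, ← parseval]
  apply av_le
  intro x
  rw [← sq_abs]
  exact pow_le_pow_left₀ (abs_nonneg _) (h.2 x) 2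

end Pool.Agent.MP_9808b6_an
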