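import Pool.Agent.MP_9808b6_an.Ineq

/-! Walsh polynomials and hypercontractivity. -/

open Finset

set_option linter.unusedSectionVars false

namespace Pool.Agent.MP_9808b6_an

variable {ι : Type} [Fintype ι] [DecidableEq ι]

/-- the sign vector with minus signs on `x` -/
def sg (x : Finset ι) (i : ι) : ℝ := if i ∈ x then -1 else 1

/-- Walsh function -/
def chi (T x : Finset ι) : ℝ := ∏ i ∈ T, sg x i

/-- Walsh polynomial in the variables of `B` -/
def evB (B : Finset ι) (c : Finset ι → ℝ) (x : Finset ι) : ℝ := ∑ T ∈ B.powerset, c T * chi T x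

/-- average over the cube -/
noncomputable def av (F : Finset ι → ℝ) : ℝ := (∑ x, F x) / Fintype.card (Finset ι)

theorem cardN_pos : (0 : ℝ) < Fintype.card (Finset ι) := by exact_mod_cast Fintype.card_pos

theorem av_nonneg {F : Finset ι → ℝ} (h : ∀ x, 0 ≤ F x) : 0 ≤ av F :=
  div_nonneg (Finset.sum_nonneg fun x _ => h x) cardN_pos.le

theorem av_mono {F G : Finset ι → ℝ} (h : ∀ x, F x ≤ G x) : av F ≤ av G :=
  div_le_div_of_nonneg_right (Finset.sum_le_sum fun x _ => h x) cardN_pos.le

theorem av_const (c : ℝ) : av (fun _ : Finset ι => c) = c := by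
  have := cardN_pos (ι := ι)
  simp only [av, sum_const, card_univ, nsmul_eq_mul]
  field_simp

theorem av_le {F : Finset ι → ℝ} {c : ℝ} (h : ∀ x, F x ≤ c) : av F ≤ c :=
  (av_mono h).trans (av_const c).le

theorem av_sum {α : Type} (s : Finset α) (F : α → Finset ι → ℝ) :
    av (fun x => ∑ i ∈ s, F i x) = ∑ i ∈ s, av (F i) := by
  simp only [av]
  rw [Finset.sum_comm, Finset.sum_div]

theorem av_mul (c : ℝ) (F : Finset ι → ℝ) : av (fun x => c * F x) = c * av F := by
  simp only [av]
  rw [← Finset.mul_sum, mul_div_assoc]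

theorem av_add (F G : Finset ι → ℝ) : av (fun x => F x + G x) = av F + av G := by
  simp only [av]
  rw [Finset.sum_add_distrib, add_div]

theorem av_compl (F : Finset ι → ℝ) : av (fun x => F xᶜ) = av F := by
  simp only [av]
  congr 1
  exact Equiv.sum_comp (Function.Involutive.toPerm compl compl_compl) F

theorem av_jensen {p : ℝ} (hp : 1 ≤ p) {F : Finset ι → ℝ} (h : ∀ x, 0 ≤ F x) :
    av F ^ p ≤ av (fun x => F x ^ p) := by
  have hN := cardN_pos (ι := ι)
  have := Real.rpow_arith_mean_le_arith_mean_rpow univ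
    (fun _ : Finset ι => (Fintype.card (Finset ι) : ℝ)⁻¹) F (fun _ _ => by positivity)
    (by simp only [sum_const, card_univ, nsmul_eq_mul]; field_simp) (fun x _ => h x) hp
  simpa only [av, div_eq_inv_mul, Finset.mul_sum] using this

theorem av_holder (f g : Finset ι → ℝ) (hf : ∀ i, 0 ≤ f i) (hg : ∀ i, 0 ≤ g i)
    {a b : ℝ} (ha : 0 < a) (hb : 0 < b) (hab : a + b = 1) :
    av (fun x => f x ^ a * g x ^ b) ≤ av f ^ a * av g ^ b := by
  have hN := cardN_pos (ι := ι)
  have h := holder2 univ f g (fun i _ => hf i) (fun i _ => hg i) ha hb hab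
  simp only [av]
  rw [Real.div_rpow (Finset.sum_nonneg fun i _ => hf i) hN.le,
    Real.div_rpow (Finset.sum_nonneg fun i _ => hg i) hN.le, div_mul_div_comm,
    ← Real.rpow_add hN, hab, Real.rpow_one]
  exact div_le_div_of_nonneg_right h hN.le

theorem sg_sq (x : Finset ι) (i : ι) : sg x i ^ 2 = 1 := by
  unfold sg; split_ifs <;> norm_num

theorem sg_flip_self (x : Finset ι) (i : ι) : sg (symmDiff x {i}) i = - sg x i := by
  by_cases h : i ∈ x <;> simp [sg, mem_symmDiff, h]

theorem sg_flip_ne (x : Finset ι) {i j : ι} (h : j ≠ i) : sg (symmDiff x {i}) j = sg x j := by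
  simp [sg, mem_symmDiff, h]

theorem sum_flip (i : ι) (F : Finset ι → ℝ) : ∑ x, F (symmDiff x {i}) = ∑ x, F x :=
  Equiv.sum_comp (Function.Involutive.toPerm (fun x : Finset ι => symmDiff x ({i} : Finset ι))
    (fun x => symmDiff_symmDiff_cancel_right _ _)) F

theorem evB_flip {B : Finset ι} {i : ι} (hi : i ∉ B) (c : Finset ι → ℝ) (x : Finset ι) :
    evB B c (symmDiff x {i}) = evB B c x := by
  apply Finset.sum_congr rfl
  intro T hT
  congr 1
  apply Finset.prod_congr rfl
  intro j hj
  exact sg_flip_ne x (fun h => hi (h ▸ mem_powerset.1 hT hj))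

theorem evB_insert {B : Finset ι} {i : ι} (hi : i ∉ B) (c : Finset ι → ℝ) (x : Finset ι) :
    evB (insert i B) c x = evB B c x + sg x i * evB B (fun T => c (insert i T)) x := by
  rw [evB, Finset.sum_powerset_insert hi, evB, evB, Finset.mul_sum]
  congr 1
  apply Finset.sum_congr rfl
  intro T hT
  rw [chi, Finset.prod_insert (fun h => hi (mem_powerset.1 hT h)), chi]
  ring

theorem parseval (B : Finset ι) (c : Finset ι → ℝ) :
    av (fun x => evB B c x ^ 2) = ∑ T ∈ B.powerset, c T ^ 2 := by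
  induction B using Finset.induction_on generalizing c with
  | empty => simp [evB, chi, av_const]
  | insert i B hi ih =>
    rw [Finset.sum_powerset_insert hi, ← ih, ← ih (fun T => c (insert i T)), ← av_add]
    simp only [av]
    congr 1
    have h := sum_flip i (fun x => evB (insert i B) c x ^ 2)
    simp only [evB_insert hi, evB_flip hi, sg_flip_self] at h ⊢
    have h2 : ∑ x, (evB B c x + sg x i * evB B (fun T => c (insert i T)) x) ^ 2 +
        ∑ x, (evB B c x + -sg x i * evB B (fun T => c (insert i T)) x) ^ 2 =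
        2 * ∑ x, (evB B c x ^ 2 + evB B (fun T => c (insert i T)) x ^ 2) := by
      rw [← Finset.sum_add_distrib, Finset.mul_sum]
      apply Finset.sum_congr rfl
      intro x _
      linear_combination (2 * evB B (fun T => c (insert i T)) x ^ 2) * sg_sq x i
    linarith

theorem hyper_sum {r : ℝ} (hr : 1 / 2 < r) (hr1 : r ≤ 1) (B : Finset ι) (c : Finset ι → ℝ) :
    (Fintype.card (Finset ι) : ℝ) ^ (1 / r) * ∑ T ∈ B.powerset, (2 * r - 1) ^ T.card * c T ^ 2 ≤
      Ph r univ (fun x => evB B c x ^ 2) := by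
  have hr0 : 0 < r := by linarith
  have hρ : 0 ≤ 2 * r - 1 := by linarith
  induction B using Finset.induction_on generalizing c with
  | empty =>
    simp only [powerset_empty, sum_singleton, card_empty, pow_zero, one_mul, Ph, evB, chi,
      prod_empty, mul_one, sum_const, card_univ, nsmul_eq_mul]
    rw [Real.mul_rpow cardN_pos.le (Real.rpow_nonneg (sq_nonneg _) _),
      ← Real.rpow_mul (sq_nonneg _), mul_one_div_cancel hr0.ne', Real.rpow_one]
  | insert i B hi ih =>
    set c' : Finset ι → ℝ := fun T => c (insert i T) with hc'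
    have e1 : ∑ T ∈ (insert i B).powerset, (2 * r - 1) ^ T.card * c T ^ 2 =
        ∑ T ∈ B.powerset, (2 * r - 1) ^ T.card * c T ^ 2 +
        (2 * r - 1) * ∑ T ∈ B.powerset, (2 * r - 1) ^ T.card * c' T ^ 2 := by
      rw [Finset.sum_powerset_insert hi, Finset.mul_sum]
      congr 1
      apply Finset.sum_congr rfl
      intro T hT
      rw [card_insert_of_notMem (fun h => hi (mem_powerset.1 hT h))]
      ring
    have h1 := revMink hr0 hr1 (univ : Finset Bool) (univ : Finset (Finset ι))
      (fun b x => cond b (evB B c x ^ 2) ((2 * r - 1) * evB B c' x ^ 2))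
      (fun b _ x _ => by cases b <;> simp only [cond] <;> positivity)
    simp only [Fintype.sum_bool, cond] at h1
    rw [Ph_mul hr0 (fun x _ => sq_nonneg _) hρ] at h1
    have h2 : Ph r univ (fun x => evB B c x ^ 2 + (2 * r - 1) * evB B c' x ^ 2) ≤
        Ph r univ (fun x => evB (insert i B) c x ^ 2) := by
      apply Real.rpow_le_rpow (sum_rpow_nonneg fun x _ => by positivity) _ (by positivity)
      have h := sum_flip i (fun x => (evB (insert i B) c x ^ 2) ^ r)
      simp only [evB_insert hi, evB_flip hi, sg_flip_self, ← hc'] at h ⊢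
      have h3 : 2 * ∑ x, (evB B c x ^ 2 + (2 * r - 1) * evB B c' x ^ 2) ^ r ≤
          ∑ x, ((evB B c x + sg x i * evB B c' x) ^ 2) ^ r +
          ∑ x, ((evB B c x + -sg x i * evB B c' x) ^ 2) ^ r := by
        rw [← Finset.sum_add_distrib, Finset.mul_sum]
        apply Finset.sum_le_sum
        intro x _
        have := two_point hr hr1 (evB B c x) (sg x i * evB B c' x)
        rw [mul_pow, sg_sq, one_mul] at this
        rw [neg_mul, ← sub_eq_add_neg]
        exact this
      linarith
    rw [e1, mul_add, mul_left_comm]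
    have := mul_le_mul_of_nonneg_left (ih c') hρ
    linarith [ih c]

theorem hyper {r : ℝ} (hr : 1 / 2 < r) (hr1 : r ≤ 1) (B : Finset ι) (c : Finset ι → ℝ) :
    ∑ T ∈ B.powerset, (2 * r - 1) ^ T.card * c T ^ 2 ≤
      av (fun x => (evB B c x ^ 2) ^ r) ^ (1 / r) := by
  have h := hyper_sum hr hr1 B c
  have hN := cardN_pos (ι := ι)
  rw [av, Real.div_rpow (sum_rpow_nonneg fun x _ => sq_nonneg _) hN.le,
    le_div_iff₀ (Real.rpow_pos_of_pos hN _), mul_comm]
  exact h

theorem L2_le_L1 (B : Finset ι) (c : Finset ι → ℝ) (m : ℕ)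
    (hc : ∀ T ∈ B.powerset, m < T.card → c T = 0) :
    av (fun x => evB B c x ^ 2) ≤ 8 ^ m * av (fun x => |evB B c x|) ^ 2 := by
  have h1 := hyper (r := 3 / 4) (by norm_num) (by norm_num) B c
  have h2 := av_holder (fun x => |evB B c x|) (fun x => evB B c x ^ 2) (fun x => abs_nonneg _)
    (fun x => sq_nonneg _) (a := 1 / 2) (b := 1 / 2) (by norm_num) (by norm_num) (by norm_num)
  have e : (fun x => (evB B c x ^ 2) ^ (3 / 4 : ℝ)) =
      fun x => |evB B c x| ^ (1 / 2 : ℝ) * (evB B c x ^ 2) ^ (1 / 2 : ℝ) := by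
    ext x
    rw [sq_rpow_eq, sq_rpow_eq, ← Real.rpow_add' (abs_nonneg _) (by norm_num)]
    norm_num
  rw [e] at h1
  set A1 := av (fun x => |evB B c x|)
  set A2 := av (fun x => evB B c x ^ 2) with hA2
  have p1 : 0 ≤ A1 := av_nonneg fun x => abs_nonneg _
  have p2 : 0 ≤ A2 := av_nonneg fun x => sq_nonneg _
  have h3 : A2 ≤ 2 ^ m * ∑ T ∈ B.powerset, (2 * (3 / 4 : ℝ) - 1) ^ T.card * c T ^ 2 := by
    rw [hA2, parseval, Finset.mul_sum]
    apply Finset.sum_le_sum
    intro T hT
    by_cases h : m < T.card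
    · simp [hc T hT h]
    · rw [← mul_assoc]
      apply le_mul_of_one_le_left (sq_nonneg _)
      obtain ⟨k, hk⟩ := Nat.exists_eq_add_of_le (not_lt.1 h)
      rw [hk, pow_add, mul_right_comm, ← mul_pow]
      norm_num
      exact one_le_pow₀ (by norm_num)
  have h4 : A2 ≤ 2 ^ m * (A1 * A2) ^ (2 / 3 : ℝ) := by
    refine h3.trans (mul_le_mul_of_nonneg_left (h1.trans ?_) (by positivity))
    refine (Real.rpow_le_rpow (av_nonneg fun x => by positivity) h2 (by norm_num)).trans ?_
    rw [← Real.mul_rpow p1 p2, ← Real.rpow_mul (by positivity)]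
    norm_num
  have h5 : A2 ^ 3 ≤ (2 ^ m * (A1 * A2) ^ (2 / 3 : ℝ)) ^ 3 := by gcongr
  rw [mul_pow, ← Real.rpow_natCast ((A1 * A2) ^ (2 / 3 : ℝ)), ← Real.rpow_mul (by positivity),
    ← pow_mul, mul_comm m 3, pow_mul] at h5
  norm_num at h5
  rcases p2.eq_or_lt with h0 | h0
  · rw [← h0]; positivity
  · apply le_of_mul_le_mul_right _ (pow_pos h0 2)
    nlinarith

theorem level_le_L1 (B : Finset ι) (c : Finset ι → ℝ) (m : ℕ) (hm : 1 ≤ m)
    (hc : ∀ T ∈ B.powerset, m < T.card → c T = 0) (l : ℕ) :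
    ∑ T ∈ powersetCard l B, c T ^ 2 ≤ 8 * (2 * m) ^ l * av (fun x => |evB B c x|) ^ 2 := by
  have hm' : (1 : ℝ) ≤ m := by exact_mod_cast hm
  set s : ℝ := 1 / (2 * m) with hs
  have s0 : 0 < s := by positivity
  have s1 : s < 1 := by rw [hs, div_lt_one (by positivity)]; linarith
  have h1 := hyper (r := (1 + s) / 2) (by linarith) (by linarith) B c
  have h2 := av_holder (fun x => |evB B c x|) (fun x => evB B c x ^ 2) (fun x => abs_nonneg _)
    (fun x => sq_nonneg _) (a := 1 - s) (b := s) (by linarith) s0 (by ring)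
  have e : (fun x => (evB B c x ^ 2) ^ ((1 + s) / 2)) =
      fun x => |evB B c x| ^ (1 - s) * (evB B c x ^ 2) ^ s := by
    ext x
    rw [sq_rpow_eq, sq_rpow_eq, ← Real.rpow_add' (abs_nonneg _) (by linarith)]
    congr 1; ring
  rw [e] at h1
  have h3 := L2_le_L1 B c m hc
  set A1 := av (fun x => |evB B c x|)
  set A2 := av (fun x => evB B c x ^ 2) with hA2
  have p1 : 0 ≤ A1 := av_nonneg fun x => abs_nonneg _
  have p2 : 0 ≤ A2 := av_nonneg fun x => sq_nonneg _
  have h4 : A1 ^ (1 - s) * A2 ^ s ≤ (8 * A1 ^ 2) ^ ((1 + s) / 2) := by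
    calc A1 ^ (1 - s) * A2 ^ s ≤ A1 ^ (1 - s) * (8 ^ m * A1 ^ 2) ^ s := by gcongr
      _ = (8 : ℝ) ^ (1 / 2 : ℝ) * (A1 ^ 2) ^ ((1 + s) / 2) := by
          rw [Real.mul_rpow (by positivity) (by positivity), ← Real.rpow_natCast 8,
            ← Real.rpow_mul (by norm_num), sq_rpow_eq, sq_rpow_eq, abs_of_nonneg p1,
            mul_left_comm, ← Real.rpow_add' p1 (by linarith)]
          congr 2
          · rw [hs]; field_simp
          · ring
      _ ≤ (8 : ℝ) ^ ((1 + s) / 2) * (A1 ^ 2) ^ ((1 + s) / 2) := by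
          gcongr
          · norm_num
          · linarith
      _ = _ := by rw [Real.mul_rpow (by norm_num) (by positivity)]
  have h5 := le_of_rpow_le (r := (1 + s) / 2) (by linarith) (av_nonneg fun x => by positivity)
    (by positivity) (h2.trans h4)
  have h6 : s ^ l * ∑ T ∈ powersetCard l B, c T ^ 2 ≤ 8 * A1 ^ 2 := by
    refine le_trans ?_ (h1.trans h5)
    have e2 : 2 * ((1 + s) / 2) - 1 = s := by ring
    rw [e2, Finset.mul_sum]
    calc ∑ T ∈ powersetCard l B, s ^ l * c T ^ 2
        = ∑ T ∈ powersetCard l B, s ^ T.card * c T ^ 2 :=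
          Finset.sum_congr rfl fun T hT => by rw [(mem_powersetCard.1 hT).2]
      _ ≤ _ := Finset.sum_le_sum_of_subset_of_nonneg
          (fun T hT => mem_powerset.2 (mem_powersetCard.1 hT).1) (fun T _ _ => by positivity)
  have h7 : (2 * (m : ℝ)) ^ l * s ^ l = 1 := by
    rw [← mul_pow, hs, mul_one_div_cancel (by positivity), one_pow]
  calc ∑ T ∈ powersetCard l B, c T ^ 2
      = (2 * (m : ℝ)) ^ l * (s ^ l * ∑ T ∈ powersetCard l B, c T ^ 2) := by
        rw [← mul_assoc, h7, one_mul]
    _ ≤ (2 * (m : ℝ)) ^ l * (8 * A1 ^ 2) := by gcongr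
    _ = _ := by ring

end Pool.Agent.MP_9808b6_an
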