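import Mathlib

/-! Elementary inequalities for finite sums of powers. -/

open Finset

namespace Pool.Agent.MP_9808b6_an

/-- the `r`-th power sum to the power `1 / r` -/
noncomputable def Ph {α : Type} (r : ℝ) (s : Finset α) (u : α → ℝ) : ℝ :=
  (∑ i ∈ s, u i ^ r) ^ (1 / r)

variable {α β : Type}

theorem sum_rpow_nonneg {r : ℝ} {s : Finset α} {u : α → ℝ} (hu : ∀ i ∈ s, 0 ≤ u i) :
    0 ≤ ∑ i ∈ s, u i ^ r := Finset.sum_nonneg fun i hi => Real.rpow_nonneg (hu i hi) _

theorem Ph_nonneg {r : ℝ} {s : Finset α} {u : α → ℝ} (hu : ∀ i ∈ s, 0 ≤ u i) : 0 ≤ Ph r s u :=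
  Real.rpow_nonneg (sum_rpow_nonneg hu) _

theorem Ph_rpow {r : ℝ} (hr : 0 < r) {s : Finset α} {u : α → ℝ} (hu : ∀ i ∈ s, 0 ≤ u i) :
    Ph r s u ^ r = ∑ i ∈ s, u i ^ r := by
  rw [Ph, ← Real.rpow_mul (sum_rpow_nonneg hu), one_div_mul_cancel hr.ne', Real.rpow_one]

theorem Ph_mono {r : ℝ} (hr : 0 < r) {s : Finset α} {u v : α → ℝ} (hu : ∀ i ∈ s, 0 ≤ u i)
    (h : ∀ i ∈ s, u i ≤ v i) : Ph r s u ≤ Ph r s v := by
  apply Real.rpow_le_rpow (sum_rpow_nonneg hu) _ (by positivity)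
  exact Finset.sum_le_sum fun i hi => Real.rpow_le_rpow (hu i hi) (h i hi) hr.le

theorem Ph_mul {r : ℝ} (hr : 0 < r) {s : Finset α} {u : α → ℝ} (hu : ∀ i ∈ s, 0 ≤ u i) {c : ℝ}
    (hc : 0 ≤ c) : Ph r s (fun i => c * u i) = c * Ph r s u := by
  unfold Ph
  have : ∑ i ∈ s, (c * u i) ^ r = c ^ r * ∑ i ∈ s, u i ^ r := by
    rw [Finset.mul_sum]
    exact Finset.sum_congr rfl fun i hi => Real.mul_rpow hc (hu i hi)
  rw [this, Real.mul_rpow (Real.rpow_nonneg hc _) (sum_rpow_nonneg hu), ← Real.rpow_mul hc,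
    mul_one_div_cancel hr.ne', Real.rpow_one]

theorem le_of_rpow_le {r x y : ℝ} (hr : 0 < r) (hx : 0 ≤ x) (hy : 0 ≤ y) (h : x ≤ y ^ r) :
    x ^ (1 / r) ≤ y := by
  calc x ^ (1 / r) ≤ (y ^ r) ^ (1 / r) := Real.rpow_le_rpow hx h (by positivity)
    _ = y := by rw [← Real.rpow_mul hy, mul_one_div_cancel hr.ne', Real.rpow_one]

theorem holder2 (s : Finset α) (f g : α → ℝ) (hf : ∀ i ∈ s, 0 ≤ f i) (hg : ∀ i ∈ s, 0 ≤ g i)
    {a b : ℝ} (ha : 0 < a) (hb : 0 < b) (hab : a + b = 1) :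
    ∑ i ∈ s, f i ^ a * g i ^ b ≤ (∑ i ∈ s, f i) ^ a * (∑ i ∈ s, g i) ^ b := by
  have h := Real.inner_le_Lp_mul_Lq_of_nonneg s (f := fun i => f i ^ a) (g := fun i => g i ^ b)
    (p := 1 / a) (q := 1 / b) ⟨by simpa using hab, by positivity, by positivity⟩
    (fun i hi => Real.rpow_nonneg (hf i hi) _) (fun i hi => Real.rpow_nonneg (hg i hi) _)
  rw [one_div_one_div, one_div_one_div] at h
  convert h using 3
  · exact Finset.sum_congr rfl fun i hi => by
      rw [← Real.rpow_mul (hf i hi), mul_one_div_cancel ha.ne', Real.rpow_one]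
  · exact Finset.sum_congr rfl fun i hi => by
      rw [← Real.rpow_mul (hg i hi), mul_one_div_cancel hb.ne', Real.rpow_one]

theorem mink {p : ℝ} (hp : 1 ≤ p) (L : Finset α) (X : Finset β) (w : β → α → ℝ)
    (hw : ∀ x ∈ X, ∀ l ∈ L, 0 ≤ w x l) :
    Ph p L (fun l => ∑ x ∈ X, w x l) ≤ ∑ x ∈ X, Ph p L (w x) := by
  classical
  induction X using Finset.induction_on with
  | empty =>
    have : p ≠ 0 := by positivity
    simp [Ph, Real.zero_rpow this, Real.zero_rpow (inv_ne_zero this)]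
  | insert x X hx ih =>
    simp only [Finset.sum_insert hx]
    refine le_trans (Real.Lp_add_le_of_nonneg L hp (hw x (mem_insert_self _ _))
      (fun l hl => Finset.sum_nonneg fun y hy => hw y (mem_insert_of_mem hy) l hl)) ?_
    exact add_le_add le_rfl (ih fun y hy => hw y (mem_insert_of_mem hy))

theorem revMink {r : ℝ} (hr : 0 < r) (hr1 : r ≤ 1) (L : Finset α) (X : Finset β) (u : α → β → ℝ)
    (hu : ∀ l ∈ L, ∀ x ∈ X, 0 ≤ u l x) :
    ∑ l ∈ L, Ph r X (u l) ≤ Ph r X (fun x => ∑ l ∈ L, u l x) := by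
  have h := mink (p := 1 / r) (by rw [le_div_iff₀ hr]; linarith) L X (fun x l => u l x ^ r)
    (fun x hx l hl => Real.rpow_nonneg (hu l hl x hx) _)
  have e : ∑ x ∈ X, Ph (1 / r) L (fun l => u l x ^ r) = ∑ x ∈ X, (∑ l ∈ L, u l x) ^ r := by
    apply Finset.sum_congr rfl
    intro x hx
    rw [Ph, one_div_one_div]
    congr 1
    exact Finset.sum_congr rfl fun l hl => by
      rw [← Real.rpow_mul (hu l hl x hx), mul_one_div_cancel hr.ne', Real.rpow_one]
  rw [e, Ph, one_div_one_div] at h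
  have h0 : 0 ≤ ∑ l ∈ L, Ph r X (u l) :=
    Finset.sum_nonneg fun l hl => Ph_nonneg (hu l hl)
  calc ∑ l ∈ L, Ph r X (u l) = ((∑ l ∈ L, Ph r X (u l)) ^ r) ^ (1 / r) := by
        rw [← Real.rpow_mul h0, mul_one_div_cancel hr.ne', Real.rpow_one]
    _ ≤ _ := Real.rpow_le_rpow (Real.rpow_nonneg h0 _) h (by positivity)

/-- two-block mixed norm inequality -/
theorem blei {r r₁ r₂ θ : ℝ} (hr : 0 < r) (hr₁ : 0 < r₁) (hr₂ : 0 < r₂) (hr₂' : r₂ ≤ 1)
    (hθ : 0 < θ) (hθ' : θ < 1) (e₁ : θ * r / r₁ + (1 - θ) * r = 1)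
    (e₂ : θ * r + (1 - θ) * r / r₂ = 1)
    (S : Finset α) (T : Finset β) (u : α → β → ℝ) (hu : ∀ s ∈ S, ∀ t ∈ T, 0 ≤ u s t) :
    ∑ s ∈ S, ∑ t ∈ T, u s t ^ r ≤
      (Ph r₁ S (fun s => ∑ t ∈ T, u s t) ^ θ * Ph r₂ T (fun t => ∑ s ∈ S, u s t) ^ (1 - θ)) ^ r := by
  have h1θ : 0 < 1 - θ := by linarith
  have hA : ∀ s ∈ S, 0 ≤ ∑ t ∈ T, u s t := fun s hs => Finset.sum_nonneg (hu s hs)
  have hB : ∀ t ∈ T, 0 ≤ ∑ s ∈ S, u s t := fun t ht => Finset.sum_nonneg fun s hs => hu s hs t ht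
  have step1 : ∀ s ∈ S, ∑ t ∈ T, u s t ^ r ≤
      ((∑ t ∈ T, u s t) ^ r₁) ^ (θ * r / r₁) * (Ph r₂ T (u s)) ^ ((1 - θ) * r) := by
    intro s hs
    have h := holder2 T (u s) (fun t => u s t ^ r₂) (hu s hs)
      (fun t ht => Real.rpow_nonneg (hu s hs t ht) _) (a := θ * r) (b := (1 - θ) * r / r₂)
      (by positivity) (by positivity) e₂
    rw [← Real.rpow_mul (hA s hs), Ph, ← Real.rpow_mul (sum_rpow_nonneg (hu s hs))]
    have e3 : r₁ * (θ * r / r₁) = θ * r := by field_simp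
    have e4 : 1 / r₂ * ((1 - θ) * r) = (1 - θ) * r / r₂ := by field_simp
    rw [e3, e4]
    refine le_trans (le_of_eq ?_) h
    apply Finset.sum_congr rfl
    intro t ht
    rw [← Real.rpow_mul (hu s hs t ht), ← Real.rpow_add' (hu s hs t ht)]
    · congr 1; field_simp; ring
    · positivity
  have step2 := holder2 S (fun s => (∑ t ∈ T, u s t) ^ r₁) (fun s => Ph r₂ T (u s))
    (fun s hs => Real.rpow_nonneg (hA s hs) _) (fun s hs => Ph_nonneg (hu s hs))
    (a := θ * r / r₁) (b := (1 - θ) * r) (by positivity) (by positivity) e₁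
  have step3 := revMink hr₂ hr₂' S T u hu
  refine le_trans (Finset.sum_le_sum step1) (le_trans step2 ?_)
  rw [Real.mul_rpow (Real.rpow_nonneg (Ph_nonneg hA) _) (Real.rpow_nonneg (Ph_nonneg hB) _),
    ← Real.rpow_mul (Ph_nonneg hA), ← Real.rpow_mul (Ph_nonneg hB)]
  apply mul_le_mul
  · apply le_of_eq
    rw [Ph, ← Real.rpow_mul (sum_rpow_nonneg hA)]
    congr 1; field_simp
  · exact Real.rpow_le_rpow (Finset.sum_nonneg fun s hs => Ph_nonneg (hu s hs)) step3
      (by positivity)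
  · exact Real.rpow_nonneg (Finset.sum_nonneg fun s hs => Ph_nonneg (hu s hs)) _
  · exact Real.rpow_nonneg (Ph_nonneg hA) _

/-- comparison with the plain sum -/
theorem Ph_le_card_mul_sum {r : ℝ} (hr : 0 < r) (hr1 : r ≤ 1) (s : Finset α) (u : α → ℝ)
    (hu : ∀ i ∈ s, 0 ≤ u i) : Ph r s u ≤ (s.card : ℝ) ^ (1 / r - 1) * ∑ i ∈ s, u i := by
  have h := Real.rpow_sum_le_const_mul_sum_rpow_of_nonneg s (f := fun i => u i ^ r) (p := 1 / r)
    (by rw [le_div_iff₀ hr]; linarith) (fun i hi => Real.rpow_nonneg (hu i hi) _)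
  refine le_trans h (le_of_eq ?_)
  congr 1
  exact Finset.sum_congr rfl fun i hi => by
    rw [← Real.rpow_mul (hu i hi), mul_one_div_cancel hr.ne', Real.rpow_one]

/-- monotonicity in the exponent -/
theorem Ph_anti {r t : ℝ} (hr : 0 < r) (hrt : r ≤ t) (s : Finset α) (u : α → ℝ)
    (hu : ∀ i ∈ s, 0 ≤ u i) : Ph t s u ≤ Ph r s u := by
  have ht : 0 < t := lt_of_lt_of_le hr hrt
  have hP := Ph_nonneg (r := r) hu
  apply le_of_rpow_le ht (sum_rpow_nonneg hu) hP
  have hle : ∀ i ∈ s, u i ≤ Ph r s u := by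
    intro i hi
    calc u i = (u i ^ r) ^ (1 / r) := by
          rw [← Real.rpow_mul (hu i hi), mul_one_div_cancel hr.ne', Real.rpow_one]
      _ ≤ _ := Real.rpow_le_rpow (Real.rpow_nonneg (hu i hi) _)
          (Finset.single_le_sum (f := fun i => u i ^ r)
            (fun j hj => Real.rpow_nonneg (hu j hj) _) hi) (by positivity)
  calc ∑ i ∈ s, u i ^ t ≤ ∑ i ∈ s, u i ^ r * Ph r s u ^ (t - r) := by
        apply Finset.sum_le_sum
        intro i hi
        have : u i ^ t = u i ^ r * u i ^ (t - r) := by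
          rw [← Real.rpow_add' (hu i hi) (by linarith)]; congr 1; ring
        rw [this]
        exact mul_le_mul_of_nonneg_left (Real.rpow_le_rpow (hu i hi) (hle i hi) (by linarith))
          (Real.rpow_nonneg (hu i hi) _)
    _ = Ph r s u ^ t := by
        rw [← Finset.sum_mul, ← Ph_rpow hr hu, ← Real.rpow_add' hP (by linarith)]
        congr 1; ring

/-- the two-point hypercontractive inequality, normalised form -/
theorem two_point_aux {q : ℝ} (hq : 1 < q) (hq2 : q ≤ 2) {e : ℝ} (he : 0 ≤ e) (he1 : e ≤ 1) :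
    2 + q * (q - 1) * e ^ 2 ≤ (1 + e) ^ q + (1 - e) ^ q := by
  have hq1 : 0 < q - 1 := by linarith
  -- first derivative
  have h1 : ∀ x ∈ Set.Icc (0 : ℝ) 1, 2 * (q - 1) * x ≤ (1 + x) ^ (q - 1) - (1 - x) ^ (q - 1) := by
    have hm : MonotoneOn (fun x : ℝ => (1 + x) ^ (q - 1) - (1 - x) ^ (q - 1) - 2 * (q - 1) * x)
        (Set.Icc 0 1) := by
      apply monotoneOn_of_hasDerivWithinAt_nonneg (convex_Icc 0 1)
        (f' := fun x => (q - 1) * (1 + x) ^ (q - 1 - 1) + (q - 1) * (1 - x) ^ (q - 1 - 1) -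
          2 * (q - 1))
      · apply ContinuousOn.sub (ContinuousOn.sub _ _) (by fun_prop)
        · exact ContinuousOn.rpow_const (by fun_prop) (fun x _ => Or.inr hq1.le)
        · exact ContinuousOn.rpow_const (by fun_prop) (fun x _ => Or.inr hq1.le)
      · intro x hx
        rw [interior_Icc] at hx
        have a1 : HasDerivAt (fun x : ℝ => (1 + x) ^ (q - 1)) (1 * (q - 1) * (1 + x) ^ (q - 1 - 1))
            x := ((hasDerivAt_id x).const_add 1).rpow_const (Or.inl (by have := hx.1; positivity))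
        have a2 : HasDerivAt (fun x : ℝ => (1 - x) ^ (q - 1))
            (-1 * (q - 1) * (1 - x) ^ (q - 1 - 1)) x :=
          ((hasDerivAt_id x).const_sub 1).rpow_const (Or.inl (by have := hx.2; simp; linarith))
        have a3 : HasDerivAt (fun x : ℝ => 2 * (q - 1) * x) (2 * (q - 1) * 1) x :=
          (hasDerivAt_id x).const_mul _
        refine HasDerivAt.hasDerivWithinAt ?_
        exact ((a1.sub a2).sub a3).congr_deriv (by ring)
      · intro x hx
        rw [interior_Icc] at hx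
        have b1 : 0 < 1 + x := by linarith [hx.1]
        have b2 : 0 < 1 - x := by linarith [hx.2]
        have b3 : 1 ≤ (1 + x) ^ (q - 1 - 1) * (1 - x) ^ (q - 1 - 1) := by
          rw [← Real.mul_rpow b1.le b2.le]
          apply Real.one_le_rpow_of_pos_of_le_one_of_nonpos (by positivity) (by nlinarith [hx.1])
            (by linarith)
        have b4 := Real.rpow_pos_of_pos b1 (q - 1 - 1)
        have b5 := Real.rpow_pos_of_pos b2 (q - 1 - 1)
        have b6 : 2 ≤ (1 + x) ^ (q - 1 - 1) + (1 - x) ^ (q - 1 - 1) := by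
          by_contra hc
          push Not at hc
          nlinarith [sq_nonneg ((1 + x) ^ (q - 1 - 1) - (1 - x) ^ (q - 1 - 1))]
        nlinarith
    intro x hx
    have := hm (Set.left_mem_Icc.2 zero_le_one) hx hx.1
    simp only [add_zero, sub_zero, sub_self, mul_zero] at this
    linarith
  have hm : MonotoneOn (fun x : ℝ => (1 + x) ^ q + (1 - x) ^ q - q * (q - 1) * x ^ 2)
      (Set.Icc 0 1) := by
    apply monotoneOn_of_hasDerivWithinAt_nonneg (convex_Icc 0 1)
      (f' := fun x => q * (1 + x) ^ (q - 1) - q * (1 - x) ^ (q - 1) - q * (q - 1) * (2 * x))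
    · apply ContinuousOn.sub (ContinuousOn.add _ _) (by fun_prop)
      · exact ContinuousOn.rpow_const (by fun_prop) (fun x _ => Or.inr (by linarith))
      · exact ContinuousOn.rpow_const (by fun_prop) (fun x _ => Or.inr (by linarith))
    · intro x hx
      rw [interior_Icc] at hx
      have a1 : HasDerivAt (fun x : ℝ => (1 + x) ^ q) (1 * q * (1 + x) ^ (q - 1))
          x := ((hasDerivAt_id x).const_add 1).rpow_const (Or.inr hq.le)
      have a2 : HasDerivAt (fun x : ℝ => (1 - x) ^ q) (-1 * q * (1 - x) ^ (q - 1)) x :=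
        ((hasDerivAt_id x).const_sub 1).rpow_const (Or.inr hq.le)
      have a3 : HasDerivAt (fun x : ℝ => q * (q - 1) * x ^ 2) (q * (q - 1) * (2 * x)) x := by
        simpa using (hasDerivAt_pow 2 x).const_mul (q * (q - 1))
      refine HasDerivAt.hasDerivWithinAt ?_
      exact ((a1.add a2).sub a3).congr_deriv (by ring)
    · intro x hx
      have := h1 x (interior_subset hx)
      nlinarith
  have := hm (Set.left_mem_Icc.2 zero_le_one) ⟨he, he1⟩ he
  simp only [add_zero, sub_zero, Real.one_rpow] at this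
  linarith

theorem two_point_le {q : ℝ} (hq : 1 < q) (hq2 : q ≤ 2) {a b : ℝ} (hb : 0 ≤ b) (hab : b ≤ a) :
    2 * (a ^ 2 + (q - 1) * b ^ 2) ^ (q / 2) ≤ (a + b) ^ q + (a - b) ^ q := by
  rcases (hb.trans hab).eq_or_lt with h0 | ha
  · have : b = 0 := le_antisymm (h0 ▸ hab) hb
    subst h0
    have hq0 : q ≠ 0 := by positivity
    simp [this, Real.zero_rpow hq0, Real.zero_rpow (div_ne_zero hq0 two_ne_zero)]
  · have he : 0 ≤ b / a := by positivity
    have he1 : b / a ≤ 1 := (div_le_one ha).2 hab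
    have h1 := two_point_aux hq hq2 he he1
    have h2 := rpow_one_add_le_one_add_mul_self (s := (q - 1) * (b / a) ^ 2) (p := q / 2)
      (by have : 0 ≤ (q - 1) * (b / a) ^ 2 := mul_nonneg (by linarith) (sq_nonneg _)
          linarith) (by linarith) (by linarith)
    have e1 : a + b = a * (1 + b / a) := by field_simp
    have e2 : a - b = a * (1 - b / a) := by field_simp
    have e3 : a ^ 2 + (q - 1) * b ^ 2 = a ^ 2 * (1 + (q - 1) * (b / a) ^ 2) := by field_simp
    have e4 : (a ^ 2) ^ (q / 2) = a ^ q := by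
      rw [← Real.rpow_natCast, ← Real.rpow_mul ha.le]; congr 1; push_cast; ring
    have h3 : 0 ≤ 1 + (q - 1) * (b / a) ^ 2 := by
      have : 0 ≤ (q - 1) * (b / a) ^ 2 := mul_nonneg (by linarith) (sq_nonneg _)
      linarith
    rw [e1, e2, e3, Real.mul_rpow ha.le (by linarith), Real.mul_rpow ha.le (by linarith),
      Real.mul_rpow (sq_nonneg a) h3, e4]
    have h4 := Real.rpow_pos_of_pos ha q
    nlinarith

theorem sq_rpow_eq (x r : ℝ) : (x ^ 2) ^ r = |x| ^ (2 * r) := by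
  rw [← sq_abs, ← Real.rpow_natCast, ← Real.rpow_mul (abs_nonneg x)]; norm_num

theorem two_point {r : ℝ} (hr : 1 / 2 < r) (hr1 : r ≤ 1) (a b : ℝ) :
    2 * (a ^ 2 + (2 * r - 1) * b ^ 2) ^ r ≤ ((a + b) ^ 2) ^ r + ((a - b) ^ 2) ^ r := by
  have key : ∀ a b : ℝ, 0 ≤ a → 0 ≤ b →
      2 * (a ^ 2 + (2 * r - 1) * b ^ 2) ^ r ≤ ((a + b) ^ 2) ^ r + ((a - b) ^ 2) ^ r := by
    intro a b ha hb
    rcases le_total b a with h | h
    · have := two_point_le (q := 2 * r) (by linarith) (by linarith) hb h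
      rw [sq_rpow_eq, sq_rpow_eq, abs_of_nonneg (by linarith), abs_of_nonneg (by linarith)]
      convert this using 3
      ring
    · have := two_point_le (q := 2 * r) (by linarith) (by linarith) ha h
      rw [sq_rpow_eq, sq_rpow_eq, abs_of_nonneg (by linarith), abs_sub_comm,
        abs_of_nonneg (by linarith), add_comm a b]
      refine le_trans ?_ this
      have e : 2 * r / 2 = r := by ring
      rw [e]
      have h5 : 0 ≤ 2 * r - 1 := by linarith
      gcongr 2 * ?_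
      apply Real.rpow_le_rpow (by positivity) _ (by linarith)
      have : a ^ 2 ≤ b ^ 2 := by gcongr
      nlinarith
  have h := key |a| |b| (abs_nonneg a) (abs_nonneg b)
  rw [sq_abs, sq_abs] at h
  refine le_trans h (le_of_eq ?_)
  rcases abs_cases a with ⟨h1, -⟩ | ⟨h1, -⟩ <;> rcases abs_cases b with ⟨h2, -⟩ | ⟨h2, -⟩ <;>
    rw [h1, h2]
  · rw [add_comm]; congr 2 <;> ring
  · rw [add_comm]; congr 2 <;> ring
  · congr 2 <;> ring

end Pool.Agent.MP_9808b6_an
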