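import Mathlib

/-! A lower bound for the Bohnenblust-Hille constants of the Boolean cube. -/

open Finset

namespace Pool.Agent.MP_9808b6_an.Low

section basic

variable {ι : Type} [Fintype ι] [DecidableEq ι]

/-- the sign vector with minus signs on `x` -/
def sn (x : Finset ι) (i : ι) : ℝ := if i ∈ x then -1 else 1

/-- Walsh function -/
def wh (S x : Finset ι) : ℝ := ∏ i ∈ S, sn x i

omit [Fintype ι] in
theorem sn_sq (x : Finset ι) (i : ι) : sn x i * sn x i = 1 := by
  unfold sn; split_ifs <;> norm_num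

omit [Fintype ι] in
theorem abs_sn (x : Finset ι) (i : ι) : |sn x i| = 1 := by
  unfold sn; split_ifs <;> norm_num

omit [Fintype ι] in
theorem wh_sq (S x : Finset ι) : wh S x * wh S x = 1 := by
  rw [wh, ← prod_mul_distrib]
  exact prod_eq_one fun i _ => sn_sq x i

omit [Fintype ι] in
theorem abs_wh (S x : Finset ι) : |wh S x| = 1 := by
  rw [wh, abs_prod]
  exact prod_eq_one fun i _ => abs_sn x i

omit [Fintype ι] in
theorem wh_comm (S x : Finset ι) : wh S x = wh x S := by
  have h : ∀ A B : Finset ι, wh A B = (-1) ^ (A ∩ B).card := fun A B => by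
    simp only [wh, sn]
    rw [prod_ite, prod_const, prod_const_one, mul_one, filter_mem_eq_inter]
  rw [h, h, inter_comm]

theorem orth (x y : Finset ι) :
    ∑ S, wh S x * wh S y = if x = y then (2 : ℝ) ^ Fintype.card ι else 0 := by
  have h : ∑ S, wh S x * wh S y = ∏ i, (1 + sn x i * sn y i) := by
    rw [prod_one_add, powerset_univ]
    exact sum_congr rfl fun S _ => by rw [wh, wh, prod_mul_distrib]
  rw [h]
  split_ifs with e
  · subst e
    simp only [sn_sq, prod_const, card_univ]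
    norm_num
  · obtain ⟨i, hi⟩ : ∃ i, ¬ (i ∈ x ↔ i ∈ y) := by
      by_contra c
      exact e (ext fun i => by_contra fun h => c ⟨i, h⟩)
    refine prod_eq_zero (mem_univ i) ?_
    by_cases a : i ∈ x <;> by_cases b : i ∈ y <;> simp_all [sn]

theorem parse (B : Finset (Finset ι)) (x : Finset ι) :
    ∑ l, (∑ S ∈ B, wh S x * wh S l) ^ 2 = 2 ^ Fintype.card ι * B.card := by
  calc ∑ l, (∑ S ∈ B, wh S x * wh S l) ^ 2
      = ∑ S ∈ B, ∑ T ∈ B, wh S x * wh T x * ∑ l, wh l S * wh l T := by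
        simp only [sq, sum_mul_sum]
        rw [sum_comm]
        refine sum_congr rfl fun S _ => ?_
        rw [sum_comm]
        refine sum_congr rfl fun T _ => ?_
        rw [mul_sum]
        refine sum_congr rfl fun l _ => ?_
        rw [wh_comm l S, wh_comm l T]
        ring
    _ = ∑ S ∈ B, (2 : ℝ) ^ Fintype.card ι := by
        refine sum_congr rfl fun S hS => ?_
        simp only [orth, mul_ite, mul_zero]
        rw [sum_ite_eq, if_pos hS, wh_sq, one_mul]
    _ = _ := by rw [sum_const, nsmul_eq_mul, mul_comm]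

theorem mgf (v : ι → ℝ) : ∑ e : Finset ι, Real.exp (∑ i, sn e i * v i) ≤
    2 ^ Fintype.card ι * Real.exp ((∑ i, v i ^ 2) / 2) := by
  have h : ∑ e : Finset ι, Real.exp (∑ i, sn e i * v i) =
      ∏ i, (Real.exp (- v i) + Real.exp (v i)) := by
    rw [prod_add, powerset_univ]
    refine sum_congr rfl fun e _ => ?_
    rw [Real.exp_sum, ← prod_mul_prod_compl e, compl_eq_univ_sdiff]
    congr 1
    · exact prod_congr rfl fun i hi => by simp [sn, hi]
    · exact prod_congr rfl fun i hi => by simp [sn, (mem_sdiff.1 hi).2]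
  rw [h, sum_div, Real.exp_sum, ← card_univ, ← prod_const, ← prod_mul_distrib]
  refine prod_le_prod (fun i _ => by positivity) fun i _ => ?_
  have := Real.cosh_le_exp_half_sq (v i)
  rw [Real.cosh_eq] at this
  linarith

/-- a choice of signs that makes finitely many sums small -/
theorem signs {Z : Type} [Fintype Z] (v : Z → ι → ℝ) (δ t N : ℝ) (ht : 0 < t)
    (hv : ∀ z, ∑ i, v z i ^ 2 ≤ δ) (hN : 2 * (Fintype.card Z : ℝ) ≤ Real.exp N) :
    ∃ e : Finset ι, ∀ z, |∑ i, sn e i * v z i| ≤ N / t + t * δ / 2 := by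
  have k : ∀ (c : ℝ) (z : Z), c ^ 2 = t ^ 2 → ∑ e : Finset ι,
      Real.exp (c * ∑ i, sn e i * v z i) ≤ 2 ^ Fintype.card ι * Real.exp (t ^ 2 * δ / 2) := by
    intro c z hc
    have := mgf fun i => c * v z i
    simp only [mul_pow, hc, ← mul_sum, mul_left_comm _ c] at this
    refine this.trans ?_
    have := hv z
    gcongr
  have s : ∑ e : Finset ι, ∑ z, (Real.exp (t * ∑ i, sn e i * v z i) +
      Real.exp (- t * ∑ i, sn e i * v z i)) ≤
      ∑ _e : Finset ι, Real.exp (N + t ^ 2 * δ / 2) := by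
    rw [sum_comm, sum_const, card_univ, Fintype.card_finset, nsmul_eq_mul, Real.exp_add]
    calc _ ≤ ∑ _z : Z, 2 * (2 ^ Fintype.card ι * Real.exp (t ^ 2 * δ / 2)) :=
          sum_le_sum fun z _ => by
            rw [sum_add_distrib]
            linarith [k t z rfl, k (- t) z (by ring)]
      _ = 2 ^ Fintype.card ι * (2 * Fintype.card Z * Real.exp (t ^ 2 * δ / 2)) := by
          rw [sum_const, card_univ, nsmul_eq_mul]; ring
      _ ≤ _ := by push_cast; gcongr
  obtain ⟨e, -, he⟩ := exists_le_of_sum_le univ_nonempty s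
  refine ⟨e, fun z => ?_⟩
  have h1 := (single_le_sum (f := fun z => Real.exp (t * ∑ i, sn e i * v z i) +
    Real.exp (- t * ∑ i, sn e i * v z i)) (fun _ _ => by positivity) (mem_univ z)).trans he
  have a := Real.exp_le_exp.1 ((le_add_of_nonneg_right (Real.exp_pos _).le).trans h1)
  have b := Real.exp_le_exp.1 ((le_add_of_nonneg_left (Real.exp_pos _).le).trans h1)
  have e1 : N / t + t * δ / 2 = (N + t ^ 2 * δ / 2) / t := by field_simp
  rw [e1, le_div_iff₀ ht]
  rcases abs_cases (∑ i, sn e i * v z i) with h | h <;> rw [h.1] <;> linarith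

/-- the number of large sets -/
theorem tail (u m : ℕ) (hu : 1 ≤ u) (hD : Fintype.card ι = m * (2 * u)) :
    ((univ.filter fun S : Finset ι => ¬ S.card ≤ m * (u + 1)).card : ℝ) ≤
      2 ^ Fintype.card ι * Real.exp (- (m / u)) := by
  have u0 : (0 : ℝ) < u := by exact_mod_cast hu
  have h := mgf fun _ : ι => - (1 / u : ℝ)
  have h2 : ∑ _S ∈ univ.filter fun S : Finset ι => ¬ S.card ≤ m * (u + 1),
      Real.exp (2 * m / u) ≤ ∑ e : Finset ι, Real.exp (∑ i, sn e i * - (1 / u : ℝ)) := by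
    refine le_trans (sum_le_sum fun S hS => ?_)
      (sum_le_sum_of_subset_of_nonneg (filter_subset _ _) fun _ _ _ => (Real.exp_pos _).le)
    have c : (m * (u + 1) : ℝ) ≤ S.card := by exact_mod_cast (not_le.1 (mem_filter.1 hS).2).le
    have e : ∑ i, sn S i = m * (2 * u) - 2 * S.card := by
      have : ∀ i, sn S i = 1 - 2 * if i ∈ S then 1 else 0 := fun i => by
        unfold sn; split_ifs <;> norm_num
      simp only [this, sum_sub_distrib, ← mul_sum, sum_boole, sum_const, card_univ, hD,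
        filter_mem_eq_inter, univ_inter]
      simp
    rw [← sum_mul, e, Real.exp_le_exp, div_le_iff₀ u0]
    field_simp
    linarith
  rw [sum_const, nsmul_eq_mul] at h2
  have e3 : (∑ _i : ι, (- (1 / u : ℝ)) ^ 2) / 2 = - (m / u) + 2 * m / u := by
    rw [sum_const, card_univ, hD, nsmul_eq_mul]
    push_cast
    field_simp
    ring
  rw [e3, Real.exp_add, ← mul_assoc] at h
  exact le_of_mul_le_mul_right (h2.trans h) (Real.exp_pos _)

end basic

theorem sum_ext {J U : Type} [Fintype J] [Fintype U] [DecidableEq U] {μ : J → U}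
    (hμ : Function.Injective μ) (c : J → ℝ) (F : U → ℝ → ℝ) (hF : ∀ S, F S 0 = 0) :
    ∑ S, F S (Function.extend μ c 0 S) = ∑ j, F (μ j) (c j) := by
  symm
  refine sum_of_injOn μ hμ.injOn (fun _ _ => mem_univ _) (fun S _ hS => ?_) fun j _ => ?_
  · rw [Function.extend_apply' _ _ _ fun ⟨j, hj⟩ => hS ⟨j, by simp, hj⟩]
    exact hF S
  · rw [hμ.extend_apply]

/-- the truncated address polynomial with well chosen signs -/
theorem build {ι κ : Type} [Fintype ι] [DecidableEq ι] [Fintype κ] [DecidableEq κ]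
    (M : Finset ι → Finset κ) (hM : Function.Injective M) (m k d n : ℕ)
    (hc : ∀ l, (M l).card ≤ m) (hd : k + m ≤ d) (e : ι ⊕ κ ≃ Fin n) (δ t q : ℝ) (ht : 0 < t)
    (hq : 0 < q) (h0 : 0 ≤ δ)
    (hδ : ((univ.filter fun S : Finset ι => ¬ S.card ≤ k).card : ℝ) ≤ 2 ^ Fintype.card ι * δ) :
    ∃ a : Finset (Fin n) → ℝ, (∀ S : Finset (Fin n), d < S.card → a S = 0) ∧
      (∀ x : Fin n → ℝ, (∀ i, x i = 1 ∨ x i = -1) →
        |∑ S : Finset (Fin n), a S * ∏ i ∈ S, x i| ≤ 1) ∧
      2 ^ Fintype.card ι * (2 ^ Fintype.card ι * (1 - δ)) *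
        (1 / (2 ^ Fintype.card ι * (1 + ((n + 1) / t + t * δ / 2)))) ^ q ≤
        ∑ S : Finset (Fin n), |a S| ^ q := by
  set P : ℝ := 2 ^ Fintype.card ι with hP
  have P0 : 0 < P := by positivity
  set η : ℝ := (n + 1) / t + t * δ / 2 with hη
  have η0 : 0 ≤ η := by positivity
  set B := univ.filter fun S : Finset ι => ¬ S.card ≤ k with hB
  let X : Finset (Fin n) → Finset ι := fun z => univ.filter fun i => e (Sum.inl i) ∈ z
  let Y : Finset (Fin n) → Finset κ := fun z => univ.filter fun j => e (Sum.inr j) ∈ z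
  obtain ⟨ε, hε⟩ := signs (Z := Finset (Fin n))
    (fun z l => wh (M l) (Y z) * ((∑ S ∈ B, wh S (X z) * wh S l) / P)) δ t (n + 1) ht
    (fun z => by
      simp only [mul_pow, sq (wh _ _), wh_sq, one_mul, div_pow, ← sum_div, parse, ← hP]
      rw [div_le_iff₀ (by positivity)]
      nlinarith [mul_le_mul_of_nonneg_left hδ P0.le])
    (by
      have : (2 : ℝ) ≤ Real.exp 1 := by linarith [Real.add_one_le_exp 1]
      rw [Fintype.card_finset, Fintype.card_fin, ← Nat.cast_succ, ← Real.exp_one_pow, pow_succ']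
      push_cast
      gcongr)
  let μ : Finset ι × Finset ι → Finset (Fin n) := fun j =>
    (j.1.disjSum (M j.2)).map e.toEmbedding
  have hμ : Function.Injective μ := fun i j h => by
    have h1 := map_injective _ h
    have h2 := congrArg toLeft h1
    have h3 := congrArg toRight h1
    simp only [toLeft_disjSum, toRight_disjSum] at h2 h3
    exact Prod.ext h2 (hM h3)
  let c : Finset ι × Finset ι → ℝ := fun j =>
    if j.1.card ≤ k then sn ε j.2 * wh j.1 j.2 / (P * (1 + η)) else 0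
  refine ⟨Function.extend μ c 0, fun S hS => ?_, fun x hx => ?_, ?_⟩
  · by_cases h : ∃ j, μ j = S
    · obtain ⟨j, rfl⟩ := h
      rw [hμ.extend_apply]
      refine if_neg fun h => ?_
      simp only [μ, card_map, card_disjSum] at hS
      have := hc j.2
      omega
    · rw [Function.extend_apply' _ _ _ h]
      rfl
  · obtain ⟨z, rfl⟩ : ∃ z : Finset (Fin n), x = sn z := by
      refine ⟨univ.filter fun i => x i = -1, funext fun i => ?_⟩
      rcases hx i with h | h <;> norm_num [sn, h]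
    rw [sum_ext hμ c (fun S r => r * ∏ i ∈ S, sn z i) fun _ => zero_mul _]
    have e1 : ∀ j, ∏ i ∈ μ j, sn z i = wh j.1 (X z) * wh (M j.2) (Y z) := fun j => by
      simp only [μ, prod_map, prod_disjSum, wh, sn, X, Y, mem_filter, mem_univ, true_and,
        Equiv.coe_toEmbedding]
    have e2 : ∀ l, ∑ S, c (S, l) * (wh S (X z) * wh (M l) (Y z)) =
        ((if X z = l then sn ε l * wh (M l) (Y z) else 0) -
          sn ε l * (wh (M l) (Y z) * ((∑ S ∈ B, wh S (X z) * wh S l) / P))) / (1 + η) := by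
      intro l
      have o := orth (X z) l
      rw [← sum_filter_add_sum_filter_not univ (fun S : Finset ι => S.card ≤ k), ← hB, ← hP] at o
      have : ∑ S, c (S, l) * (wh S (X z) * wh (M l) (Y z)) = sn ε l * wh (M l) (Y z) /
          (P * (1 + η)) * ∑ S with S.card ≤ k, wh S (X z) * wh S l := by
        rw [sum_filter, mul_sum]
        refine sum_congr rfl fun S _ => ?_
        simp only [c]
        split_ifs <;> ring
      rw [this, eq_sub_of_add_eq o]
      split_ifs <;> field_simp <;> ring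
    simp only [e1]
    rw [Fintype.sum_prod_type_right]
    simp only [e2]
    rw [← sum_div, sum_sub_distrib, sum_ite_eq, if_pos (mem_univ _), abs_div,
      abs_of_pos (by positivity : 0 < 1 + η), div_le_one (by positivity)]
    refine (abs_sub _ _).trans (add_le_add ?_ (hε z))
    rw [abs_mul, abs_sn, abs_wh, mul_one]
  · rw [sum_ext hμ c (fun _ r => |r| ^ q) fun _ => by simp [hq.ne'], Fintype.sum_prod_type_right]
    have e3 : ∀ l, ∑ S, |c (S, l)| ^ q = (P - B.card) * (1 / (P * (1 + η))) ^ q := by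
      intro l
      have o := card_filter_add_card_filter_not (s := univ) fun S : Finset ι => S.card ≤ k
      rw [card_univ, Fintype.card_finset, ← hB] at o
      have o' : P - B.card = (univ.filter fun S : Finset ι => S.card ≤ k).card := by
        rw [hP, sub_eq_iff_eq_add]
        exact_mod_cast o.symm
      rw [o', ← nsmul_eq_mul, ← sum_const, sum_filter]
      refine sum_congr rfl fun S _ => ?_
      simp only [c]
      split_ifs
      · rw [abs_div, abs_mul, abs_sn, abs_wh, mul_one, abs_of_pos (by positivity)]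
      · simp [hq.ne']
    simp only [e3]
    rw [sum_const, card_univ, Fintype.card_finset, nsmul_eq_mul, mul_assoc]
    push_cast
    rw [← hP]
    gcongr
    linarith

/-- explicit lower bound -/
theorem core (u m d : ℕ) (hu : 1 ≤ u) (hm : 1 ≤ m) (hd : m * (u + 2) ≤ d) (t : ℝ) (ht : 0 < t) :
    ∃ n : ℕ, 1 ≤ n ∧ ∃ a : Finset (Fin n) → ℝ, (∀ S : Finset (Fin n), d < S.card → a S = 0) ∧
      (∀ x : Fin n → ℝ, (∀ i, x i = 1 ∨ x i = -1) →
        |∑ S : Finset (Fin n), a S * ∏ i ∈ S, x i| ≤ 1) ∧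
      (2 : ℝ) ^ ((m * (2 * u) : ℝ) / d) * (1 - Real.exp (- (m / u))) /
        (1 + ((m * (2 * u + 2 ^ (2 * u)) + 1) / t + t * Real.exp (- (m / u)) / 2)) ≤
        (∑ S : Finset (Fin n), |a S| ^ ((2 * (d : ℝ)) / ((d : ℝ) + 1))) ^
          (((d : ℝ) + 1) / (2 * (d : ℝ))) := by
  classical
  let ι := Fin m × Fin (2 * u)
  let κ := Fin m × Finset (Fin (2 * u))
  have cι : Fintype.card ι = m * (2 * u) := by simp [ι]
  have cκ : Fintype.card (ι ⊕ κ) = m * (2 * u + 2 ^ (2 * u)) := by simp [ι, κ, mul_add]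
  let M : Finset ι → Finset κ := fun l =>
    univ.image fun b => (b, univ.filter fun j => (b, j) ∈ l)
  have hM : Function.Injective M := fun l l' h => by
    ext ⟨b, j⟩
    have : (b, univ.filter fun j => (b, j) ∈ l) ∈ M l' := h ▸ mem_image_of_mem _ (mem_univ b)
    obtain ⟨b', -, hb⟩ := mem_image.1 this
    obtain ⟨rfl, h2⟩ := Prod.mk.inj hb
    simpa using (Finset.ext_iff.1 h2 j).symm
  have d1 : 1 ≤ d := le_trans (by nlinarith) hd
  have d0 : (1 : ℝ) ≤ d := by exact_mod_cast d1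
  set δ := Real.exp (- (m / u : ℝ)) with hδ
  have δ1 : δ ≤ 1 := Real.exp_le_one_iff.2 (neg_nonpos.2 (by positivity))
  have δ0 : 0 < δ := Real.exp_pos _
  obtain ⟨a, a1, a2, a3⟩ := build M hM m (m * (u + 1)) d _
    (fun l => card_image_le.trans (by simp)) (by nlinarith) (Fintype.equivFinOfCardEq cκ) δ t
    ((2 * (d : ℝ)) / ((d : ℝ) + 1)) ht (by positivity) δ0.le (tail u m hu cι)
  refine ⟨_, Nat.mul_pos hm (by positivity), a, a1, a2, ?_⟩
  refine le_trans ?_ (Real.rpow_le_rpow (by have := sub_nonneg.2 δ1; positivity) a3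
    (by positivity))
  push_cast
  set η : ℝ := (m * (2 * u + 2 ^ (2 * u)) + 1) / t + t * δ / 2 with hη
  have η0 : 0 ≤ η := by positivity
  have s0 := sub_nonneg.2 δ1
  rw [Real.mul_rpow (by positivity) (by positivity), ← Real.rpow_mul (by positivity),
    show (2 * (d : ℝ)) / ((d : ℝ) + 1) * (((d : ℝ) + 1) / (2 * (d : ℝ))) = 1 by field_simp,
    Real.rpow_one, ← mul_assoc (_ ^ _), Real.mul_rpow (by positivity) s0, ← pow_add, cι,
    ← Real.rpow_natCast, ← Real.rpow_natCast, ← Real.rpow_mul (by norm_num)]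
  have e : ((m * (2 * u) + m * (2 * u) : ℕ) : ℝ) * (((d : ℝ) + 1) / (2 * (d : ℝ))) =
      (m * (2 * u) : ℝ) / d + (m * (2 * u) : ℕ) := by
    push_cast
    field_simp
    ring
  have l : 1 - δ ≤ (1 - δ) ^ (((d : ℝ) + 1) / (2 * (d : ℝ))) :=
    Real.self_le_rpow_of_le_one s0 (by linarith) (by
      rw [div_le_one (by positivity)]; linarith)
  rw [e, Real.rpow_add (by norm_num), mul_one_div, mul_right_comm _ _ (_ ^ _),
    mul_comm (_ ^ ((m * (2 * u) : ℕ) : ℝ)) (1 + η), mul_div_mul_right _ _ (by positivity)]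
  gcongr

open Filter Topology in
theorem lim (u : ℕ) (hu : 1 ≤ u) : Tendsto (fun m : ℕ =>
    (2 : ℝ) ^ ((2 * u : ℝ) / (u + 2) * (m / (m + 1))) * (1 - Real.exp (- (m / u))) /
      (1 + ((m * (2 * u + 2 ^ (2 * u)) + 1) / m ^ 2 + m ^ 2 * Real.exp (- (m / u)) / 2)))
    atTop (𝓝 ((2 : ℝ) ^ ((2 * u : ℝ) / (u + 2) * 1) * (1 - 0) / (1 + (0 + u ^ 2 * 0 / 2)))) := by
  have u0 : (0 : ℝ) < u := by exact_mod_cast hu
  have h0 : Tendsto (fun m : ℕ => (m / u : ℝ)) atTop atTop :=
    tendsto_natCast_atTop_atTop.atTop_div_const u0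
  have h1 := (Real.tendsto_pow_mul_exp_neg_atTop_nhds_zero 2).comp h0
  have h2 := Real.tendsto_exp_neg_atTop_nhds_zero.comp h0
  have h3 : Tendsto (fun m : ℕ => (m / (m + 1) : ℝ)) atTop (𝓝 1) :=
    tendsto_natCast_div_add_atTop (1 : ℝ)
  have h4 : Tendsto (fun m : ℕ => ((m * (2 * u + 2 ^ (2 * u)) + 1) / m ^ 2 : ℝ)) atTop (𝓝 0) := by
    have a := tendsto_inv_atTop_nhds_zero_nat (𝕜 := ℝ)
    have b := (a.mul_const ((2 * u + 2 ^ (2 * u) : ℝ))).add (a.mul a)
    simp only [zero_mul, add_zero] at b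
    refine b.congr' ?_
    filter_upwards [eventually_gt_atTop 0] with m hm
    have : (0 : ℝ) < m := by exact_mod_cast hm
    field_simp
  refine ((tendsto_const_nhds.rpow (h3.const_mul _) (by norm_num)).mul (h2.const_sub 1)).div
    ((h4.add (((h1.const_mul ((u : ℝ) ^ 2)).congr fun m => ?_).div_const 2)).const_add 1)
    (by norm_num)
  simp only [Function.comp]
  field_simp

open Filter Topology in
theorem main (c : ℝ) (hc : c < 4) : ∃ d₀ : ℕ, ∀ d : ℕ, d₀ ≤ d →
    ∃ n : ℕ, 1 ≤ n ∧ ∃ a : Finset (Fin n) → ℝ, (∀ S : Finset (Fin n), d < S.card → a S = 0) ∧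
      (∀ x : Fin n → ℝ, (∀ i, x i = 1 ∨ x i = -1) →
        |∑ S : Finset (Fin n), a S * ∏ i ∈ S, x i| ≤ 1) ∧
      c ≤ (∑ S : Finset (Fin n), |a S| ^ ((2 * (d : ℝ)) / ((d : ℝ) + 1))) ^
          (((d : ℝ) + 1) / (2 * (d : ℝ))) := by
  have h1 : Tendsto (fun u : ℕ => (2 : ℝ) ^ (2 * (u / (u + 2) : ℝ))) atTop
      (𝓝 ((2 : ℝ) ^ (2 * 1 : ℝ))) :=
    tendsto_const_nhds.rpow ((tendsto_natCast_div_add_atTop (2 : ℝ)).const_mul 2) (by norm_num)
  obtain ⟨u, h2, hu⟩ := ((h1.eventually (lt_mem_nhds (a := c) (by norm_num; exact hc))).and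
    (eventually_ge_atTop 1)).exists
  obtain ⟨m₀, h3⟩ := eventually_atTop.1 (((lim u hu).eventually (lt_mem_nhds (a := c)
    (by simpa [mul_div_assoc] using h2))).and (eventually_ge_atTop 1))
  refine ⟨m₀ * (u + 2), fun d hd => ?_⟩
  obtain ⟨h4, hm⟩ := h3 (d / (u + 2)) ((Nat.le_div_iff_mul_le (by omega)).2 hd)
  have l1 := Nat.div_mul_le_self d (u + 2)
  have l2 := Nat.lt_mul_div_succ d (show 0 < u + 2 by omega)
  generalize d / (u + 2) = m at h4 hm l1 l2
  have m0 : (0 : ℝ) < m := by exact_mod_cast hm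
  obtain ⟨n, hn, a, a1, a2, a3⟩ := core u m d hu hm l1 ((m : ℝ) ^ 2) (by positivity)
  refine ⟨n, hn, a, a1, a2, h4.le.trans (le_trans ?_ a3)⟩
  have s0 : 0 ≤ 1 - Real.exp (- (m / u : ℝ)) :=
    sub_nonneg.2 (Real.exp_le_one_iff.2 (neg_nonpos.2 (by positivity)))
  have d0 : (0 : ℝ) < d := by exact_mod_cast lt_of_lt_of_le (Nat.mul_pos hm (by omega)) l1
  have l3 : (d : ℝ) ≤ (u + 2) * (m + 1) := by exact_mod_cast l2.le
  have : (2 * u : ℝ) / (u + 2) * (m / (m + 1)) ≤ m * (2 * u) / d := by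
    rw [div_mul_div_comm, mul_comm (2 * u : ℝ)]
    gcongr
  gcongr
  norm_num

end Pool.Agent.MP_9808b6_an.Low
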