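import Pool.Agent.MP_9808b6_an.Adm

/-! Random splitting of the variables. -/

open Finset

set_option linter.unusedSectionVars false

namespace Pool.Agent.MP_9808b6_an

variable {ι : Type} [Fintype ι] [DecidableEq ι]

/-- half of the Bohnenblust-Hille exponent -/
noncomputable def rr (k : ℕ) : ℝ := k / (k + 1)

theorem rr_pos {k : ℕ} (hk : 1 ≤ k) : 0 < rr k := by
  have : (0 : ℝ) < k := by exact_mod_cast hk
  unfold rr; positivity

theorem rr_le_one (k : ℕ) : rr k ≤ 1 := by
  unfold rr
  rw [div_le_one (by positivity)]; linarith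

theorem inv_rr {k : ℕ} (hk : 1 ≤ k) : 1 / rr k = 1 + 1 / k := by
  have : (0 : ℝ) < k := by exact_mod_cast hk
  unfold rr; field_simp

theorem two_rr (k : ℕ) : 2 * rr k - 1 = (k - 1) / (k + 1) := by
  unfold rr; field_simp; ring

theorem half_lt_rr {k : ℕ} (hk : 2 ≤ k) : 1 / 2 < rr k := by
  have : (2 : ℝ) ≤ k := by exact_mod_cast hk
  unfold rr
  rw [lt_div_iff₀ (by positivity)]; linarith

/-- squared critical norm of level `k` -/
noncomputable def N2 (a : Finset ι → ℝ) (k : ℕ) : ℝ :=
  Ph (rr k) (powersetCard k univ) (fun S => a S ^ 2)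

/-- squared mixed norm -/
noncomputable def XX (a : Finset ι → ℝ) (A : Finset ι) (j l : ℕ) : ℝ :=
  Ph (rr j) (powersetCard j A) (fun S => ∑ T ∈ powersetCard l Aᶜ, a (S ∪ T) ^ 2)

theorem N2_nonneg (a : Finset ι → ℝ) (k : ℕ) : 0 ≤ N2 a k := Ph_nonneg fun _ _ => sq_nonneg _

theorem XX_nonneg (a : Finset ι → ℝ) (A : Finset ι) (j l : ℕ) : 0 ≤ XX a A j l :=
  Ph_nonneg fun _ _ => Finset.sum_nonneg fun _ _ => sq_nonneg _

theorem blei_split (a : Finset ι → ℝ) (A : Finset ι) {j l : ℕ} (hj : 1 ≤ j) (hl : 1 ≤ l) :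
    ∑ S ∈ powersetCard j A, ∑ T ∈ powersetCard l Aᶜ, (a (S ∪ T) ^ 2) ^ rr (j + l) ≤
      (XX a A j l ^ ((j : ℝ) / (j + l)) * XX a Aᶜ l j ^ (1 - (j : ℝ) / (j + l))) ^ rr (j + l) := by
  have hj' : (0 : ℝ) < j := by exact_mod_cast hj
  have hl' : (0 : ℝ) < l := by exact_mod_cast hl
  have h := blei (r := rr (j + l)) (r₁ := rr j) (r₂ := rr l) (θ := (j : ℝ) / (j + l))
    (rr_pos (by omega)) (rr_pos hj) (rr_pos hl) (rr_le_one l) (by positivity)
    (by rw [div_lt_one (by positivity)]; linarith)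
    (by unfold rr; push_cast; field_simp; ring) (by unfold rr; push_cast; field_simp; ring)
    (powersetCard j A) (powersetCard l Aᶜ) (fun S T => a (S ∪ T) ^ 2) (fun _ _ _ _ => sq_nonneg _)
  convert h using 4 <;> simp only [XX, compl_compl, union_comm]

theorem split_avg (k : ℕ) (J : Finset ℕ) (hJ : ∀ j ∈ J, j ≤ k) (π : ℝ)
    (hπ : ∀ S : Finset ι, S.card = k → π ≤ av (fun A => if (S ∩ A).card ∈ J then 1 else 0))
    (F : Finset ι → ℝ) (hF : ∀ S, 0 ≤ F S) :
    π * ∑ S ∈ powersetCard k univ, F S ≤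
      av (fun A => ∑ j ∈ J, ∑ S ∈ powersetCard j A, ∑ T ∈ powersetCard (k - j) Aᶜ, F (S ∪ T)) := by
  calc π * ∑ S ∈ powersetCard k univ, F S
      ≤ ∑ S ∈ powersetCard k univ, av (fun A => F S * if (S ∩ A).card ∈ J then 1 else 0) := by
        rw [Finset.mul_sum]
        apply Finset.sum_le_sum
        intro S hS
        rw [av_mul, mul_comm]
        exact mul_le_mul_of_nonneg_left (hπ S (mem_powersetCard.1 hS).2) (hF S)
    _ = _ := by
        rw [← av_sum]
        congr 1
        ext A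
        rw [powersetCard_eq_filter, powerset_univ, Finset.sum_filter, sum_split A]
        simp only [powersetCard_eq_filter, Finset.sum_filter]
        rw [Finset.sum_comm (s := J)]
        apply Finset.sum_congr rfl
        intro S hS
        have hS' := mem_powerset.1 hS
        rw [Finset.sum_ite_eq]
        split_ifs with hSJ
        · apply Finset.sum_congr rfl
          intro T hT
          have hT' := mem_powerset.1 hT
          rw [union_inter_of hS' hT', if_pos hSJ, mul_one,
            card_union_of_disjoint (disj_of hS' hT')]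
          have := hJ _ hSJ
          congr 1
          apply propext
          omega
        · apply Finset.sum_eq_zero
          intro T hT
          have hT' := mem_powerset.1 hT
          rw [union_inter_of hS' hT', if_neg hSJ, mul_zero, ite_self]

theorem hyper_X (a : Finset ι → ℝ) (A : Finset ι) {j : ℕ} (hj : 2 ≤ j) (L : Finset ℕ) :
    ∑ l ∈ L, (2 * rr j - 1) ^ l * XX a A j l ≤ av (fun x => N2 (res a A x) j) := by
  have hr := half_lt_rr hj
  have hr0 : 0 < rr j := by linarith
  have hρ : 0 ≤ 2 * rr j - 1 := by linarith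
  have hs : ∀ l (S : Finset ι), 0 ≤ ∑ T ∈ powersetCard l Aᶜ, a (S ∪ T) ^ 2 :=
    fun l S => Finset.sum_nonneg fun _ _ => sq_nonneg _
  have h1 := revMink hr0 (rr_le_one j) L (powersetCard j A)
    (fun l S => (2 * rr j - 1) ^ l * ∑ T ∈ powersetCard l Aᶜ, a (S ∪ T) ^ 2)
    (fun l _ S _ => mul_nonneg (pow_nonneg hρ _) (hs l S))
  calc _ = ∑ l ∈ L, Ph (rr j) (powersetCard j A)
        (fun S => (2 * rr j - 1) ^ l * ∑ T ∈ powersetCard l Aᶜ, a (S ∪ T) ^ 2) :=
        Finset.sum_congr rfl fun l _ => by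
          rw [Ph_mul hr0 (fun S _ => hs l S) (pow_nonneg hρ _), XX]
    _ ≤ _ := h1
    _ ≤ Ph (rr j) (powersetCard j A)
        (fun S => av (fun x => (res a A x S ^ 2) ^ rr j) ^ (1 / rr j)) := by
        apply Ph_mono hr0
        · intro S _
          exact Finset.sum_nonneg fun l _ => mul_nonneg (pow_nonneg hρ _) (hs l S)
        · intro S hS
          simp only [res_of_subset (mem_powersetCard.1 hS).1]
          refine le_trans ?_ (hyper hr (rr_le_one j) Aᶜ (fun T => a (S ∪ T)))
          simp only [powersetCard_eq_filter, Finset.sum_filter, Finset.mul_sum]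
          rw [Finset.sum_comm]
          apply Finset.sum_le_sum
          intro T _
          simp only [mul_ite, mul_zero]
          rw [Finset.sum_ite_eq]
          split_ifs
          · exact le_rfl
          · positivity
    _ = av (fun x => ∑ S ∈ powersetCard j A, (res a A x S ^ 2) ^ rr j) ^ (1 / rr j) := by
        rw [Ph, av_sum]
        congr 1
        apply Finset.sum_congr rfl
        intro S _
        rw [← Real.rpow_mul (av_nonneg fun x => by positivity), one_div_mul_cancel hr0.ne',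
          Real.rpow_one]
    _ ≤ av (fun x => (∑ S ∈ powersetCard j A, (res a A x S ^ 2) ^ rr j) ^ (1 / rr j)) :=
        av_jensen (by rw [le_div_iff₀ hr0]; linarith [rr_le_one j])
          (fun x => sum_rpow_nonneg fun _ _ => sq_nonneg _)
    _ ≤ _ := by
        apply av_mono
        intro x
        apply Real.rpow_le_rpow (sum_rpow_nonneg fun _ _ => sq_nonneg _) _ (by positivity)
        exact Finset.sum_le_sum_of_subset_of_nonneg (powersetCard_mono (subset_univ _))
          (fun _ _ _ => by positivity)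

theorem rr_one : rr 1 = 1 / 2 := by unfold rr; norm_num

theorem X_one {a : Finset ι → ℝ} {m : ℕ} {M : ℝ} (hm : 1 ≤ m) (h : Adm a m M) (A : Finset ι)
    (l : ℕ) : XX a A 1 l ≤ 8 * (2 * m) ^ l * (m * M) ^ 2 := by
  have hM := h.nonneg
  calc XX a A 1 l ≤ Ph (rr 1) (powersetCard 1 A)
        (fun S => 8 * (2 * m) ^ l * av (fun x => |res a A x S|) ^ 2) := by
        apply Ph_mono (rr_pos le_rfl) (fun _ _ => Finset.sum_nonneg fun _ _ => sq_nonneg _)
        intro S hS
        simp only [res_of_subset (mem_powersetCard.1 hS).1]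
        exact level_le_L1 Aᶜ (fun T => a (S ∪ T)) m hm
          (fun T _ hT => h.1 _ (lt_of_lt_of_le hT (card_le_card subset_union_right))) l
    _ = 8 * (2 * m) ^ l * (av (fun x => ∑ S ∈ powersetCard 1 A, |res a A x S|)) ^ 2 := by
        rw [Ph_mul (rr_pos le_rfl) (fun _ _ => sq_nonneg _) (by positivity), Ph, rr_one, av_sum]
        congr 1
        rw [one_div_one_div, Real.rpow_two]
        congr 1
        apply Finset.sum_congr rfl
        intro S _
        rw [sq_rpow_eq, abs_of_nonneg (av_nonneg fun x => abs_nonneg _)]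
        norm_num
    _ ≤ _ := by
        gcongr
        · exact av_nonneg fun x => Finset.sum_nonneg fun _ _ => abs_nonneg _
        · apply av_le
          intro x
          exact le_trans (Finset.sum_le_sum_of_subset_of_nonneg (powersetCard_mono (subset_univ _))
            (fun _ _ _ => abs_nonneg _)) (level_one hm (h.res A x))

theorem N2_one {a : Finset ι → ℝ} {m : ℕ} {M : ℝ} (hm : 1 ≤ m) (h : Adm a m M) :
    N2 a 1 ≤ (m * M) ^ 2 := by
  rw [N2, Ph, rr_one, one_div_one_div, Real.rpow_two]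
  have e : ∑ S ∈ powersetCard 1 univ, (a S ^ 2) ^ (1 / 2 : ℝ) = ∑ S ∈ powersetCard 1 univ, |a S| :=
    Finset.sum_congr rfl fun S _ => by rw [sq_rpow_eq]; norm_num
  rw [e]
  exact pow_le_pow_left₀ (Finset.sum_nonneg fun _ _ => abs_nonneg _) (level_one hm h) 2

theorem prob_single (S : Finset ι) {j : ℕ} (hj : j ≤ S.card) :
    (1 / 2 : ℝ) ^ S.card ≤ av (fun A => if (S ∩ A).card ∈ ({j} : Finset ℕ) then 1 else 0) := by
  obtain ⟨S₁, h1, h2⟩ := Finset.exists_subset_card_eq hj
  have hN := cardN_pos (ι := ι)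
  rw [av, le_div_iff₀ hN, ← Finset.sum_filter, sum_const, nsmul_eq_mul, mul_one]
  have h3 : (Sᶜ.powerset).card ≤
      (univ.filter (fun A => (S ∩ A).card ∈ ({j} : Finset ℕ))).card := by
    apply Finset.card_le_card_of_injOn (fun T => S₁ ∪ T)
    · intro T hT
      have hT' := mem_powerset.1 hT
      simp only [coe_filter, mem_univ, true_and, Set.mem_ofPred_eq, mem_singleton]
      rw [inter_comm, union_inter_of h1 hT', h2]
    · intro T hT T' hT' he
      have e1 := union_inter_of (A := Sᶜ) (mem_powerset.1 hT) (T := S₁) (by simpa using h1)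
      have e2 := union_inter_of (A := Sᶜ) (mem_powerset.1 hT') (T := S₁) (by simpa using h1)
      simp only at he
      rw [← e1, ← e2, union_comm, he, union_comm]
  rw [card_powerset, card_compl] at h3
  refine le_trans (le_of_eq ?_) (Nat.cast_le.2 h3)
  obtain ⟨c, hc⟩ := Nat.exists_eq_add_of_le (card_le_univ S)
  rw [Fintype.card_finset, hc, Nat.add_sub_cancel_left]
  push_cast
  rw [pow_add, ← mul_assoc, ← mul_pow]
  norm_num

theorem N2_le_single (a : Finset ι → ℝ) {j l : ℕ} (hj : 1 ≤ j) (hl : 1 ≤ l) {U V : ℝ}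
    (hU : ∀ A, XX a A j l ≤ U) (hV : ∀ A, XX a A l j ≤ V) :
    N2 a (j + l) ≤ 4 ^ (j + l) * (U ^ ((j : ℝ) / (j + l)) * V ^ (1 - (j : ℝ) / (j + l))) := by
  have hj' : (0 : ℝ) < j := by exact_mod_cast hj
  have hl' : (0 : ℝ) < l := by exact_mod_cast hl
  have hr := rr_pos (k := j + l) (by omega)
  have hU0 : 0 ≤ U := (XX_nonneg _ _ _ _).trans (hU ∅)
  have hV0 : 0 ≤ V := (XX_nonneg _ _ _ _).trans (hV ∅)
  have hθ : 0 ≤ 1 - (j : ℝ) / (j + l) := by
    rw [sub_nonneg, div_le_one (by positivity)]; linarith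
  have h1 := split_avg (j + l) {j} (by simp) ((1 / 2 : ℝ) ^ (j + l))
    (fun S hS => by rw [← hS]; exact prob_single S (by omega))
    (fun S => (a S ^ 2) ^ rr (j + l)) (fun S => by positivity)
  have h2 : av (fun A : Finset ι => ∑ i ∈ ({j} : Finset ℕ), ∑ S ∈ powersetCard i A,
      ∑ T ∈ powersetCard (j + l - i) Aᶜ, (a (S ∪ T) ^ 2) ^ rr (j + l)) ≤
      (U ^ ((j : ℝ) / (j + l)) * V ^ (1 - (j : ℝ) / (j + l))) ^ rr (j + l) := by
    apply av_le
    intro A
    rw [sum_singleton, Nat.add_sub_cancel_left]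
    refine (blei_split a A hj hl).trans ?_
    have := XX_nonneg a A j l
    have := XX_nonneg a Aᶜ l j
    gcongr
    · exact hU A
    · exact hV Aᶜ
  apply le_of_rpow_le hr (sum_rpow_nonneg fun _ _ => sq_nonneg _) (by positivity)
  rw [Real.mul_rpow (by positivity) (by positivity)]
  have h3 : (2 : ℝ) ^ (j + l) ≤ ((4 : ℝ) ^ (j + l)) ^ rr (j + l) := by
    have e : (4 : ℝ) ^ (j + l) = (2 ^ (j + l)) ^ 2 := by rw [← pow_mul, mul_comm, pow_mul]; norm_num
    rw [e, sq_rpow_eq, abs_of_nonneg (by positivity)]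
    conv_lhs => rw [← Real.rpow_one ((2 : ℝ) ^ (j + l))]
    apply Real.rpow_le_rpow_of_exponent_le (one_le_pow₀ (by norm_num))
    linarith [half_lt_rr (k := j + l) (by omega)]
  have h4 := mul_le_mul_of_nonneg_left (h1.trans h2) (by positivity : (0 : ℝ) ≤ 2 ^ (j + l))
  rw [← mul_assoc, ← mul_pow] at h4
  norm_num at h4
  refine le_trans (by simpa using h4) ?_
  gcongr

theorem prob_central (S : Finset ι) (J : Finset ℕ) (t : ℝ) (ht : 0 < t)
    (hJ : ∀ j ≤ S.card, |2 * (j : ℝ) - S.card| ≤ t → j ∈ J) :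
    1 - S.card / t ^ 2 ≤ av (fun A => if (S ∩ A).card ∈ J then 1 else 0) := by
  have h1 := parseval S (fun T => if T.card = 1 then 1 else 0)
  have e1 : ∑ T ∈ S.powerset, (if T.card = 1 then (1 : ℝ) else 0) ^ 2 = S.card := by
    simp only [ite_pow, one_pow, ne_eq, OfNat.ofNat_ne_zero, not_false_eq_true, zero_pow]
    rw [← Finset.sum_filter, ← powersetCard_eq_filter]
    simp
  have e2 : ∀ A, evB S (fun T => if T.card = 1 then 1 else 0) A = S.card - 2 * (S ∩ A).card := by
    intro A
    simp only [evB, ite_mul, one_mul, zero_mul]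
    rw [← Finset.sum_filter, ← powersetCard_eq_filter, powersetCard_one, sum_map]
    simp only [Function.Embedding.coeFn_mk, chi, prod_singleton]
    have : ∀ i ∈ S, sg A i = 1 - 2 * (if i ∈ A then 1 else 0) := by
      intro i _; unfold sg; split_ifs <;> norm_num
    rw [Finset.sum_congr rfl this, Finset.sum_sub_distrib, ← Finset.mul_sum, ← Finset.sum_filter,
      filter_mem_eq_inter]
    simp
  simp only [e2] at h1
  rw [e1] at h1
  calc 1 - (S.card : ℝ) / t ^ 2
      = av (fun A => 1 + (-1 / t ^ 2) * ((S.card : ℝ) - 2 * (S ∩ A).card) ^ 2) := by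
        rw [av_add, av_const, av_mul, h1]; ring
    _ ≤ _ := by
        apply av_mono
        intro A
        split_ifs with h
        · have : 0 ≤ 1 / t ^ 2 * ((S.card : ℝ) - 2 * (S ∩ A).card) ^ 2 := by positivity
          have e : -1 / t ^ 2 = - (1 / t ^ 2) := by ring
          rw [e]; linarith
        · have h2 : t < |2 * ((S ∩ A).card : ℝ) - S.card| := by
            by_contra hc
            exact h (hJ _ (card_le_card inter_subset_left) (not_lt.1 hc))
          have h3 : t ^ 2 ≤ ((S.card : ℝ) - 2 * (S ∩ A).card) ^ 2 := by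
            rw [← sq_abs ((S.card : ℝ) - _), abs_sub_comm]
            exact pow_le_pow_left₀ ht.le h2.le 2
          have h4 : 1 ≤ ((S.card : ℝ) - 2 * (S ∩ A).card) ^ 2 / t ^ 2 := by
            rw [le_div_iff₀ (by positivity)]; linarith
          have e : -1 / t ^ 2 * ((S.card : ℝ) - 2 * (S ∩ A).card) ^ 2 =
            - (((S.card : ℝ) - 2 * (S ∩ A).card) ^ 2 / t ^ 2) := by ring
          rw [e]; linarith

theorem N2_le_central (a : Finset ι → ℝ) {k : ℕ} (hk : 1 ≤ k) (J : Finset ℕ) (π β : ℝ)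
    (hπ0 : 0 < π) (hβ : 0 ≤ β)
    (hπ : ∀ S : Finset ι, S.card = k → π ≤ av (fun A => if (S ∩ A).card ∈ J then 1 else 0))
    (hJ : ∀ j ∈ J, 1 ≤ j ∧ j < k ∧ k - j ∈ J ∧ (j : ℝ) ≤ β * k) :
    N2 a k ≤ π⁻¹ ^ (1 / rr k) * (J.card : ℝ) ^ (1 / rr k - 1) * (2 * β) *
      av (fun A => ∑ j ∈ J, XX a A j (k - j)) := by
  have hr := rr_pos hk
  have hk' : (0 : ℝ) < k := by exact_mod_cast hk
  have h1 := split_avg k J (fun j hj => (hJ j hj).2.1.le) π hπ
    (fun S => (a S ^ 2) ^ rr k) (fun S => by positivity)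
  let W : Finset ι → ℝ := fun A => (J.card : ℝ) ^ (1 / rr k - 1) *
    ∑ j ∈ J, β * (XX a A j (k - j) + XX a Aᶜ (k - j) j)
  have hZ : ∀ A, ∀ j ∈ J, 0 ≤ β * (XX a A j (k - j) + XX a Aᶜ (k - j) j) :=
    fun A j _ => mul_nonneg hβ (add_nonneg (XX_nonneg _ _ _ _) (XX_nonneg _ _ _ _))
  have hW : ∀ A, 0 ≤ W A := fun A => mul_nonneg (by positivity) (Finset.sum_nonneg (hZ A))
  have h2 : ∀ A : Finset ι, ∑ j ∈ J, ∑ S ∈ powersetCard j A,
      ∑ T ∈ powersetCard (k - j) Aᶜ, (a (S ∪ T) ^ 2) ^ rr k ≤ W A ^ rr k := by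
    intro A
    calc _ ≤ ∑ j ∈ J, (β * (XX a A j (k - j) + XX a Aᶜ (k - j) j)) ^ rr k := by
          apply Finset.sum_le_sum
          intro j hj
          obtain ⟨j1, j2, j3, j4⟩ := hJ j hj
          have j5 := (hJ _ j3).2.2.2
          have h := blei_split a A j1 (l := k - j) (by omega)
          have e : j + (k - j) = k := by omega
          have e' : (j : ℝ) + ((k - j : ℕ) : ℝ) = k := by exact_mod_cast e
          rw [e, e'] at h
          refine h.trans ?_
          have p1 := XX_nonneg a A j (k - j)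
          have p2 := XX_nonneg a Aᶜ (k - j) j
          have t1 : (j : ℝ) / k ≤ β := by rw [div_le_iff₀ hk']; exact j4
          have t2 : 1 - (j : ℝ) / k ≤ β := by
            rw [sub_le_iff_le_add, ← sub_le_iff_le_add', le_div_iff₀ hk']; linarith
          have t3 : 0 ≤ 1 - (j : ℝ) / k := by
            rw [sub_nonneg, div_le_one hk']; exact_mod_cast j2.le
          apply Real.rpow_le_rpow (by positivity) _ hr.le
          refine (Real.geom_mean_le_arith_mean2_weighted (by positivity) t3 p1 p2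
            (by ring)).trans ?_
          rw [mul_add]
          gcongr
      _ = _ := (Ph_rpow hr (hZ A)).symm
      _ ≤ _ := Real.rpow_le_rpow (Ph_nonneg (hZ A))
          (Ph_le_card_mul_sum hr (rr_le_one k) J _ (hZ A)) hr.le
  have h3 : av (fun A => W A ^ rr k) ^ (1 / rr k) ≤ av W := by
    refine (av_jensen (by rw [le_div_iff₀ hr]; linarith [rr_le_one k])
      (fun A => Real.rpow_nonneg (hW A) _)).trans (le_of_eq ?_)
    congr 1
    ext A
    rw [← Real.rpow_mul (hW A), mul_one_div_cancel hr.ne', Real.rpow_one]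
  have h4 : av W = (J.card : ℝ) ^ (1 / rr k - 1) * (2 * β) *
      av (fun A => ∑ j ∈ J, XX a A j (k - j)) := by
    simp only [W, ← Finset.mul_sum, Finset.sum_add_distrib]
    rw [av_mul, av_mul, av_add, av_compl (fun A => ∑ j ∈ J, XX a A (k - j) j)]
    have : (fun A => ∑ j ∈ J, XX a A (k - j) j) = fun A => ∑ j ∈ J, XX a A j (k - j) := by
      ext A
      apply Finset.sum_nbij' (fun j => k - j) (fun j => k - j)
      · intro j hj; exact (hJ j hj).2.2.1
      · intro j hj; exact (hJ j hj).2.2.1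
      · intro j hj; have := (hJ j hj).2.1; omega
      · intro j hj; have := (hJ j hj).2.1; omega
      · intro j hj
        have := (hJ j hj).2.1
        congr 1
        omega
    rw [this]; ring
  have h5 : ∑ S ∈ powersetCard k univ, (a S ^ 2) ^ rr k ≤ π⁻¹ * av (fun A => W A ^ rr k) := by
    rw [le_inv_mul_iff₀ hπ0]
    exact h1.trans (av_mono h2)
  calc N2 a k ≤ (π⁻¹ * av (fun A => W A ^ rr k)) ^ (1 / rr k) :=
        Real.rpow_le_rpow (sum_rpow_nonneg fun _ _ => sq_nonneg _) h5 (by positivity)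
    _ = π⁻¹ ^ (1 / rr k) * av (fun A => W A ^ rr k) ^ (1 / rr k) :=
        Real.mul_rpow (by positivity) (av_nonneg fun A => Real.rpow_nonneg (hW A) _)
    _ ≤ π⁻¹ ^ (1 / rr k) * av W := by gcongr
    _ = _ := by rw [h4]; ring

end Pool.Agent.MP_9808b6_an
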